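import Pool.Agent.Helper76.EW.Multi

/-!
# Package M2: a subspace on which the form is negative (perturbed version of `multi'`)
-/

set_option autoImplicit false

namespace Pool.Agent.Helper76.EX

open Complex Filter Topology Set MeasureTheory
open scoped ComplexConjugate ContDiff
open Pool.Agent.Helper76.LW (Cf)
open Pool.Agent.Helper76.EW (FF)

variable {ι : Type*} {u : ι → ℂ} {m : ι → ℝ}

theorem multi2 (C : Cf u m) {T E0 ε : ℝ} {n : ℕ} (hT : 2 ≤ T) (hE0 : 0 < E0) (hE1 : E0 ≤ 1 / 2) (hε : 0 < ε)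
    (W : Finset ι) (hW : ∀ i ∈ W, |(u i).im| ≤ T ∧ 4 * E0 ≤ (u i).re) (hWc : W.card ≤ n)
    (hsep : ∀ i ∈ W, ∀ j ∈ W, i ≠ j → 4 * E0 ≤ ‖u i - u j‖)
    (F τ : ι → ℂ → ℂ) (ro : ι → ℝ) (h2 : ∀ p ∈ W, 0 < ro p) (h3 : ∀ p ∈ W, ro p ≤ E0)
    (h4 : ∀ p ∈ W, (FF (F p) (u p)).re ≤ -(1 / 2))
    (h5 : ∀ p ∈ W, ∀ i, ‖u i - u p‖ ≤ ro p →
      (FF (F p) (u i)).re ≤ 0 ∧ ‖F p (u i)‖ ≤ 2 ∧ ‖F p (-conj (u i))‖ ≤ 2)
    (h6 : ∀ p ∈ W, ∀ i, ro p < ‖u i - u p‖ → ro p < ‖u i - (-conj (u p))‖ → F p (u i) = 0)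
    (h7 : ∀ p ∈ W, ∀ v : ℂ, |v.re| ≤ 1 / 2 → ‖τ p v‖ ≤ ε / (1 + |v.im|))
    (hsum : n * (4 * ε * (2 * T + 2) + ε ^ 2) * (∑' i, m i / (1 + |(u i).im|) ^ 2) < 1 / 2) :
    ∀ c : ι → ℂ, (∃ i ∈ W, c i ≠ 0) →
      ∑' i, m i * (FF (fun z => ∑ q ∈ W, c q * (F q z + τ q z)) (u i)).re < 0 := by
  classical
  intro c hc
  obtain ⟨σ, hσu, hσm⟩ := C.refl
  have hT0 : 0 < T := by linarith
  -- a point near `p` is killed by the other functions
  have hcross : ∀ p ∈ W, ∀ q ∈ W, q ≠ p → ∀ i, ‖u i - u p‖ ≤ ro p → F q (u i) = 0 := by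
    intro p hp q hq hqp i hip
    have e1 := h3 p hp
    have e2 := h3 q hq
    have e3 := hsep q hq p hp hqp
    apply h6 q hq i
    · have : ‖u q - u p‖ ≤ ‖u i - u q‖ + ‖u i - u p‖ := by
        calc ‖u q - u p‖ = ‖-(u i - u q) + (u i - u p)‖ := by
              congr 1
              ring
          _ ≤ _ := by
              refine (norm_add_le _ _).trans ?_
              rw [norm_neg]
      linarith
    · have h8 : (u i).re + (u q).re ≤ ‖u i - (-conj (u q))‖ := by
        have := Complex.re_le_norm (u i - (-conj (u q)))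
        simpa using this
      have h9 : (u p).re - (u i).re ≤ ‖u i - u p‖ := by
        have := Complex.abs_re_le_norm (u i - u p)
        rw [Complex.sub_re] at this
        have := neg_abs_le ((u i).re - (u p).re)
        linarith
      have h10 := (hW p hp).2
      have h11 := (hW q hq).2
      linarith
  have hcross' : ∀ p ∈ W, ∀ q ∈ W, q ≠ p → ∀ i, ‖u i - (-conj (u p))‖ ≤ ro p → F q (u i) = 0 := by
    intro p hp q hq hqp i hip
    have e1 := h3 p hp
    have e2 := h3 q hq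
    have e3 := hsep q hq p hp hqp
    apply h6 q hq i
    · have h8 : (u q).re - (u i).re ≤ ‖u i - u q‖ := by
        have := Complex.abs_re_le_norm (u i - u q)
        rw [Complex.sub_re] at this
        have := neg_abs_le ((u i).re - (u q).re)
        linarith
      have h9 : (u i).re + (u p).re ≤ ‖u i - (-conj (u p))‖ := by
        have := Complex.re_le_norm (u i - (-conj (u p)))
        simpa using this
      have h10 := (hW p hp).2
      have h11 := (hW q hq).2
      linarith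
    · have h12 : ‖u q - u p‖ = ‖-conj (u q) - (-conj (u p))‖ := by
        rw [← Complex.norm_conj, map_sub]
        have : -conj (u q) - -conj (u p) = -(conj (u q) - conj (u p)) := by ring
        rw [this, norm_neg]
      have : ‖-conj (u q) - (-conj (u p))‖ ≤ ‖u i - (-conj (u q))‖ + ‖u i - (-conj (u p))‖ := by
        calc ‖-conj (u q) - (-conj (u p))‖ = ‖-(u i - (-conj (u q))) + (u i - (-conj (u p)))‖ := by
              congr 1
              ring
          _ ≤ _ := by
              refine (norm_add_le _ _).trans ?_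
              rw [norm_neg]
      linarith
  obtain ⟨Q, hQe⟩ : ∃ Q : ℂ → ℂ, ∀ z, Q z = ∑ q ∈ W, c q * F q z := ⟨_, fun _ => rfl⟩
  obtain ⟨t, hte⟩ : ∃ t : ℂ → ℂ, ∀ z, t z = ∑ q ∈ W, c q * τ q z := ⟨_, fun _ => rfl⟩
  have hG : (fun z => ∑ q ∈ W, c q * (F q z + τ q z)) = fun z => Q z + t z := by
    funext z
    rw [hQe, hte, ← Finset.sum_add_distrib]
    exact Finset.sum_congr rfl fun q _ => by ring
  rw [hG]
  set sa := ∑ q ∈ W, ‖c q‖ with hsa
  have hsa0 : 0 ≤ sa := Finset.sum_nonneg fun q _ => norm_nonneg _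
  have hcle : ∀ p ∈ W, ‖c p‖ ≤ sa := fun p hp =>
    Finset.single_le_sum (f := fun q => ‖c q‖) (fun q _ => norm_nonneg _) hp
  -- reflection of the distances
  have hrefl1 : ∀ i p, ‖u (σ i) - (-conj (u p))‖ = ‖u i - u p‖ := by
    intro i p
    rw [hσu]
    have : -conj (u i) - -conj (u p) = -conj (u i - u p) := by
      rw [map_sub]
      ring
    rw [this, norm_neg, Complex.norm_conj]
  have hrefl2 : ∀ i p, ‖u (σ i) - u p‖ = ‖u i - (-conj (u p))‖ := by
    intro i p
    rw [hσu, ← Complex.norm_conj]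
    have : conj (-conj (u i) - u p) = -(u i - -conj (u p)) := by
      simp
      ring
    rw [this, norm_neg]
  -- the values near `p`
  have hvals : ∀ p ∈ W, ∀ i, ‖u i - u p‖ ≤ ro p →
      Q (u i) = c p * F p (u i) ∧ Q (-conj (u i)) = c p * F p (-conj (u i)) := by
    intro p hp i hip
    constructor
    · rw [hQe, Finset.sum_eq_single p]
      · intro q hq hqp
        rw [hcross p hp q hq hqp i hip, mul_zero]
      · intro h
        exact absurd hp h
    · rw [hQe, Finset.sum_eq_single p]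
      · intro q hq hqp
        have := hcross' p hp q hq hqp (σ i) (by rw [hrefl1]; exact hip)
        rw [hσu] at this
        rw [this, mul_zero]
      · intro h
        exact absurd hp h
  have hval : ∀ p ∈ W, ∀ i, ‖u i - u p‖ ≤ ro p →
      FF Q (u i) = ((‖c p‖ ^ 2 : ℝ) : ℂ) * FF (F p) (u i) := by
    intro p hp i hip
    rw [← Pool.Agent.Helper76.EW.FF_smul]
    unfold FF
    rw [(hvals p hp i hip).1, (hvals p hp i hip).2]
  -- in a cluster
  have hcl1 : ∀ p ∈ W, ∀ i, ‖u i - u p‖ ≤ ro p →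
      ‖Q (u i)‖ ≤ 2 * sa ∧ ‖Q (-conj (u i))‖ ≤ 2 * sa ∧ |(u i).im| ≤ T + 1 / 2 ∧ (FF Q (u i)).re ≤ 0 := by
    intro p hp i hip
    obtain ⟨g1, g2⟩ := hvals p hp i hip
    obtain ⟨k1, k2, k3⟩ := h5 p hp i hip
    have hcp := hcle p hp
    refine ⟨?_, ?_, ?_, ?_⟩
    · rw [g1, norm_mul, mul_comm 2 sa]
      exact mul_le_mul hcp k2 (norm_nonneg _) hsa0
    · rw [g2, norm_mul, mul_comm 2 sa]
      exact mul_le_mul hcp k3 (norm_nonneg _) hsa0
    · have e1 := Complex.abs_im_le_norm (u i - u p)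
      rw [Complex.sub_im] at e1
      have e2 : |(u i).im| ≤ |(u i).im - (u p).im| + |(u p).im| := by
        have := abs_add_le ((u i).im - (u p).im) (u p).im
        rwa [sub_add_cancel] at this
      have e3 := (hW p hp).1
      have e4 := h3 p hp
      linarith
    · rw [hval p hp i hip, Complex.re_ofReal_mul]
      exact mul_nonpos_of_nonneg_of_nonpos (sq_nonneg _) k1
  have hdich : ∀ i, (‖Q (u i)‖ ≤ 2 * sa ∧ ‖Q (-conj (u i))‖ ≤ 2 * sa ∧ |(u i).im| ≤ T + 1 / 2 ∧
      (FF Q (u i)).re ≤ 0) ∨ (Q (u i) = 0 ∧ Q (-conj (u i)) = 0) := by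
    intro i
    by_cases hcl : ∃ p ∈ W, ‖u i - u p‖ ≤ ro p ∨ ‖u i - (-conj (u p))‖ ≤ ro p
    · left
      obtain ⟨p, hp, hc | hc⟩ := hcl
      · exact hcl1 p hp i hc
      · have hc' : ‖u (σ i) - u p‖ ≤ ro p := by
          rw [hrefl2]
          exact hc
        obtain ⟨k1, k2, k3, k4⟩ := hcl1 p hp (σ i) hc'
        rw [hσu] at k1 k2 k3 k4
        refine ⟨?_, k1, ?_, ?_⟩
        · simpa using k2
        · simpa using k3
        · rw [Pool.Agent.Helper76.EW.FF_refl, Complex.conj_re] at k4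
          exact k4
    · right
      push Not at hcl
      constructor
      · rw [hQe]
        refine Finset.sum_eq_zero fun q hq => ?_
        rw [h6 q hq i (hcl q hq).1 (hcl q hq).2, mul_zero]
      · rw [hQe]
        refine Finset.sum_eq_zero fun q hq => ?_
        have := h6 q hq (σ i) (by rw [hrefl2]; exact (hcl q hq).2) (by rw [hrefl1]; exact (hcl q hq).1)
        rw [hσu] at this
        rw [this, mul_zero]
  -- the perturbation
  have htb : ∀ v : ℂ, |v.re| ≤ 1 / 2 → ‖t v‖ ≤ sa * ε / (1 + |v.im|) := by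
    intro v hv
    rw [hte, hsa, mul_div_assoc, Finset.sum_mul]
    refine (norm_sum_le _ _).trans (Finset.sum_le_sum fun q hq => ?_)
    rw [norm_mul]
    exact mul_le_mul_of_nonneg_left (h7 q hq v hv) (norm_nonneg _)
  have hexp : ∀ v : ℂ, FF (fun z => Q z + t z) v =
      FF Q v + (Q v * conj (t (-conj v)) + t v * conj (Q (-conj v)) + t v * conj (t (-conj v))) := by
    intro v
    unfold FF
    rw [map_add]
    ring
  set K := 4 * ε * (2 * T + 2) + ε ^ 2 with hK
  have hK0 : 0 < K := by positivity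
  have hb : ∀ i, (FF Q (u i)).re ≤ 0 ∧
      ‖Q (u i) * conj (t (-conj (u i))) + t (u i) * conj (Q (-conj (u i))) + t (u i) * conj (t (-conj (u i)))‖ ≤
        sa ^ 2 * K * (1 / (1 + |(u i).im|) ^ 2) ∧ (T + 1 / 2 < |(u i).im| → FF Q (u i) = 0) := by
    intro i
    have hre := (C.re_lt i).le
    have t1 := htb (u i) hre
    have t2 := htb (-conj (u i)) (by simpa using hre)
    have e2 : |(-conj (u i)).im| = |(u i).im| := by simp
    rw [e2] at t2
    have hy : 0 < 1 + |(u i).im| := by positivity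
    set y := 1 + |(u i).im| with hydef
    have hN : ‖Q (u i) * conj (t (-conj (u i))) + t (u i) * conj (Q (-conj (u i))) +
        t (u i) * conj (t (-conj (u i)))‖ ≤ ‖Q (u i)‖ * (sa * ε / y) + (sa * ε / y) * ‖Q (-conj (u i))‖ +
          (sa * ε / y) * (sa * ε / y) := by
      refine (norm_add_le _ _).trans (add_le_add ((norm_add_le _ _).trans (add_le_add ?_ ?_)) ?_)
      · rw [norm_mul, Complex.norm_conj]
        exact mul_le_mul_of_nonneg_left t2 (norm_nonneg _)
      · rw [norm_mul, Complex.norm_conj]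
        exact mul_le_mul_of_nonneg_right t1 (norm_nonneg _)
      · rw [norm_mul, Complex.norm_conj]
        exact mul_le_mul t1 t2 (norm_nonneg _) (by positivity)
    rcases hdich i with ⟨k1, k2, k3, k4⟩ | ⟨k1, k2⟩
    · refine ⟨k4, hN.trans ?_, fun h => absurd k3 (not_le.mpr h)⟩
      have hy2 : y ≤ 2 * T + 2 := by rw [hydef]; linarith
      have e3 : sa ^ 2 * K * (1 / y ^ 2) = (2 * sa * ((2 * T + 2) / y)) * (sa * ε / y) +
          (sa * ε / y) * (2 * sa * ((2 * T + 2) / y)) + (sa * ε / y) * (sa * ε / y) := by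
        rw [hK]
        field_simp
        ring
      rw [e3]
      have e4 : 2 * sa ≤ 2 * sa * ((2 * T + 2) / y) := by
        have : 1 ≤ (2 * T + 2) / y := by
          rw [le_div_iff₀ hy]
          linarith
        have h2sa : 0 ≤ 2 * sa := by linarith
        nlinarith
      have e5 : 0 ≤ sa * ε / y := by positivity
      have e6 := mul_le_mul_of_nonneg_right (k1.trans e4) e5
      have e7 := mul_le_mul_of_nonneg_left (k2.trans e4) e5
      linarith
    · have e3 : FF Q (u i) = 0 := by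
        unfold FF
        rw [k1, zero_mul]
      refine ⟨by rw [e3, Complex.zero_re], hN.trans ?_, fun _ => e3⟩
      rw [k1, k2, norm_zero, zero_mul, mul_zero, zero_add, zero_add]
      have e4 : (sa * ε / y) * (sa * ε / y) = sa ^ 2 * ε ^ 2 * (1 / y ^ 2) := by
        field_simp
      rw [e4]
      have e5 : ε ^ 2 ≤ K := by
        rw [hK]
        have : 0 ≤ 4 * ε * (2 * T + 2) := by positivity
        linarith
      gcongr
  have hsumm : Summable fun i => m i * (FF (fun z => Q z + t z) (u i)).re := by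
    refine Pool.Agent.Helper76.EW.summable_FF C (T := T + 1 / 2) (K := sa ^ 2 * K) _ fun i hi => ?_
    rw [hexp, (hb i).2.2 hi, zero_add]
    exact (hb i).2.1
  -- pointwise comparison
  have hpt : ∀ i, m i * (FF (fun z => Q z + t z) (u i)).re ≤
      sa ^ 2 * K * (m i / (1 + |(u i).im|) ^ 2) - (if i ∈ W then ‖c i‖ ^ 2 / 2 else 0) := by
    intro i
    have hm := C.one_le i
    have hm0 := C.m_nonneg i
    obtain ⟨b1, b2, -⟩ := hb i
    have b3 : (FF (fun z => Q z + t z) (u i)).re ≤ (FF Q (u i)).re +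
        sa ^ 2 * K * (1 / (1 + |(u i).im|) ^ 2) := by
      rw [hexp, Complex.add_re]
      have := (Complex.re_le_norm _).trans b2
      linarith
    have b4 : m i * (FF (fun z => Q z + t z) (u i)).re ≤ m i * (FF Q (u i)).re +
        sa ^ 2 * K * (m i / (1 + |(u i).im|) ^ 2) := by
      calc _ ≤ m i * ((FF Q (u i)).re + sa ^ 2 * K * (1 / (1 + |(u i).im|) ^ 2)) := by gcongr
        _ = _ := by ring
    split_ifs with hi
    · have b5 := hval i hi i (by rw [sub_self, norm_zero]; exact (h2 i hi).le)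
      have b6 : (FF Q (u i)).re ≤ -(‖c i‖ ^ 2 / 2) := by
        rw [b5, Complex.re_ofReal_mul]
        have := mul_le_mul_of_nonneg_left (h4 i hi) (sq_nonneg ‖c i‖)
        linarith
      have b7 : m i * (FF Q (u i)).re ≤ -(‖c i‖ ^ 2 / 2) := by
        have : m i * (FF Q (u i)).re ≤ 1 * (FF Q (u i)).re := by nlinarith
        linarith
      linarith
    · rw [sub_zero]
      have b7 : m i * (FF Q (u i)).re ≤ 0 := mul_nonpos_of_nonneg_of_nonpos hm0 b1
      linarith
  have hs1 : Summable fun i => sa ^ 2 * K * (m i / (1 + |(u i).im|) ^ 2) := C.sum2.mul_left _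
  have hs2 : HasSum (fun i => if i ∈ W then ‖c i‖ ^ 2 / 2 else 0) (∑ i ∈ W, ‖c i‖ ^ 2 / 2) := by
    have this : HasSum (fun i => if i ∈ W then ‖c i‖ ^ 2 / 2 else 0)
        (∑ i ∈ W, (if i ∈ W then ‖c i‖ ^ 2 / 2 else 0)) :=
      hasSum_sum_of_ne_finset_zero (fun i hi => by simp [hi])
    convert this using 1
    exact Finset.sum_congr rfl fun i hi => by simp [hi]
  have hle := hsumm.tsum_le_tsum hpt (hs1.sub hs2.summable)
  rw [hs1.tsum_sub hs2.summable, tsum_mul_left, hs2.tsum_eq] at hle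
  refine lt_of_le_of_lt hle ?_
  have hcard : (W.card : ℝ) ≤ n := by exact_mod_cast hWc
  have hCS : sa ^ 2 ≤ W.card * ∑ i ∈ W, ‖c i‖ ^ 2 := by
    rw [hsa]
    exact sq_sum_le_card_mul_sum_sq
  have hapos : 0 < ∑ i ∈ W, ‖c i‖ ^ 2 := by
    obtain ⟨i, hi, hai⟩ := hc
    have h8 : 0 < ‖c i‖ := norm_pos_iff.mpr hai
    exact Finset.sum_pos' (fun j _ => sq_nonneg _) ⟨i, hi, by positivity⟩
  set S0 := ∑' i, m i / (1 + |(u i).im|) ^ 2 with hS0
  have hS00 : 0 ≤ S0 := tsum_nonneg fun i => div_nonneg (C.m_nonneg i) (by positivity)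
  have h8 : sa ^ 2 * K * S0 ≤ (n * ∑ i ∈ W, ‖c i‖ ^ 2) * K * S0 := by
    gcongr
    refine hCS.trans ?_
    gcongr
  have h9 : (n * ∑ i ∈ W, ‖c i‖ ^ 2) * K * S0 = (n * K * S0) * ∑ i ∈ W, ‖c i‖ ^ 2 := by ring
  rw [← Finset.sum_div]
  nlinarith

end Pool.Agent.Helper76.EX
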