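import Pool.Agent.Helper68.EX.BB3

set_option autoImplicit false
set_option maxHeartbeats 2000000

/-!
# Package BB: zeros beyond `exp ((1+ε) e^{L/2})` are not seen
-/

namespace Pool.Agent.Helper68.EX.BB

open Complex Filter Topology Set MeasureTheory
open scoped ComplexConjugate ContDiff
open Pool.Agent.Helper61.W
open Pool.Agent.V11271.LI (Zr mm cfg_zeta zz)
open Pool.Agent.Helper42.WB (Sb den den_nonneg en en_nonneg en_eq integrable_den0 integrable_den1 aw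
  aw_cont aw_nonneg aw_le_one aw_sum_ge en_pos ZZ ZZ_nonneg)

variable {g : ℝ → ℂ}

/-- positivity, with explicit parameters -/
theorem core2 (h : TF g) (h0 : g ≠ 0) {L e b ε1 C : ℝ} (hL : 0 < L) (he : 0 < e) (he1 : e ≤ 1 / 2)
    (hs : ∀ x, x ∉ Icc (-(L / 2)) (L / 2) → g x = 0)
    {N n p : ℕ} (hN : 1 ≤ N) (hp : 2 ≤ p) (hnN : N ≤ n) (hn : 960 * p * L * N ≤ n)
    (hb0 : 0 < b) (hbe : 8 * p * n * b = e) (hε1 : 0 < ε1) (hC0 : 0 < C)
    (hW : ∀ g : ℝ → ℂ, TF g → ∀ ℓ : ℝ, 0 ≤ ℓ →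
      (∀ x, x ∉ Icc (-(ℓ / 2)) (ℓ / 2) → g x = 0) → ∀ N : ℕ,
      1 / (2 * Real.pi) * (∫ t, den g t * ∑ n ∈ Finset.range N, aw n t) -
        ((1 + ε1) * Real.exp (ℓ / 2) + C * (1 + ℓ) ^ 2) * en g - 2 * (‖LT g (1 / 2)‖ * ‖LT g (-1 / 2)‖) ≤
        (∑' ρ : Zr, tm (corr g) ρ).re)
    (hM : (1 + ε1) * Real.exp ((L + e) / 2) + C * (1 + (L + e)) ^ 2 + 7 ≤ Real.log (N + 1))
    (hδ : Real.log (N + 1) * (2 * (16 / 625) ^ n) ≤ 1)
    (hpol : L * Real.exp (L / 2) * (1 / 100) ^ n ≤ 1)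
    {H : ℝ} (hH1 : 1 ≤ H) (hHA : 8 * n * (2 / (b * H)) ^ (2 * p) ≤ 1)
    (hHB : 64 * n * ((2 / b) ^ (2 * p) / H ^ (2 * p - 2)) * ((L + e) * Real.exp ((L + e) / 2)) * ZZ ≤ 1 / 2)
    (hz : ∀ ρ : Zr, |(ρ : ℂ).im| < H → (ρ : ℂ).re ≠ 1 / 2 →
      LT g ((ρ : ℂ) - 1 / 2) = 0 ∨ LT g (1 / 2 - conj (ρ : ℂ)) = 0) :
    0 < (∑' ρ : Zr, tm (corr g) ρ).re := by
  have hNr : (1 : ℝ) ≤ N := by exact_mod_cast hN
  have hn1 : 1 ≤ n := hN.trans hnN
  have hnr : (1 : ℝ) ≤ n := by exact_mod_cast hn1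
  have hpr : (2 : ℝ) ≤ p := by exact_mod_cast hp
  have hpb1 : p * b ≤ 1 := by
    have h1 : p * b * 1 ≤ p * b * n := by gcongr
    nlinarith
  have hb1 : b ≤ 1 := by nlinarith
  have hpb : p * b ^ 2 ≤ 1 := by nlinarith
  have hcmp := compare h hL he hs hn1 hp hb0 hb1 hbe hH1 hHA hz
  obtain ⟨hlh, hen⟩ := high h hL he1 hs hN hp hnN hn hb0 hbe
  have hpo := polar h hL hs hN hp hn1 hb0 hpb hen
  set q := flm b p (2 * n) g with hq
  have hqT : TF q := TF_flm b p h (2 * n)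
  have hqs : ∀ x, x ∉ Icc (-((L + e) / 2)) ((L + e) / 2) → q x = 0 := by
    have h1 := flm_supp hb0 p hs (2 * n)
    have e1 : L / 2 + 2 * p * b * ((2 * n : ℕ) : ℝ) = (L + e) / 2 := by
      rw [← hbe]
      push_cast
      ring
    rwa [e1] at h1
  have henq : 0 < en q := by
    have h1 := en_pos h h0
    have h2 := lt_of_lt_of_le h1 hen
    by_contra h3
    push Not at h3
    have h4 : en q = 0 := le_antisymm h3 (en_nonneg q)
    rw [h4, mul_zero] at h2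
    exact lt_irrefl _ h2
  have hlow := hW q hqT (L + e) (by linarith) hqs N
  have hdenq := integrable_den0 hqT
  have hmN : MeasurableSet {t : ℝ | 3 * (N : ℝ) < |t|} := measurableSet_lt measurable_const measurable_abs
  have hpi := Real.pi_pos
  set l : ℝ := Real.log (N + 1) with hl
  have hM0 : 0 ≤ (1 + ε1) * Real.exp ((L + e) / 2) + C * (1 + (L + e)) ^ 2 := by positivity
  have hlog0 : 0 ≤ l - 1 := by linarith
  have hcontS : Continuous fun t => ∑ n ∈ Finset.range N, aw n t :=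
    continuous_finsetSum _ fun n _ => aw_cont n
  have hSint : Integrable (fun t => den q t * ∑ n ∈ Finset.range N, aw n t) := by
    refine integrable_den1 hqT hcontS (K := N) fun y => ?_
    rw [abs_of_nonneg (Finset.sum_nonneg fun n _ => aw_nonneg n y)]
    refine (Finset.sum_le_sum fun n _ => aw_le_one n y).trans ?_
    simp
  set Qh := ∫ t in {t : ℝ | 3 * (N : ℝ) < |t|}, den q t with hQh
  have hA1 : (l - 1) * Qh ≤ ∫ t, den q t * ∑ n ∈ Finset.range N, aw n t := by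
    rw [hQh, ← integral_const_mul]
    refine le_trans ?_ (setIntegral_le_integral (s := {t : ℝ | 3 * (N : ℝ) < |t|}) hSint
      (Eventually.of_forall fun t => mul_nonneg (den_nonneg q t) (Finset.sum_nonneg fun n _ => aw_nonneg n t)))
    refine setIntegral_mono_on (hdenq.const_mul _).integrableOn hSint.integrableOn hmN fun t ht => ?_
    have ht' : 3 * (N : ℝ) < |t| := ht
    rw [mul_comm]
    exact mul_le_mul_of_nonneg_left (aw_sum_ge hN ht'.le) (den_nonneg q t)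
  have hsplit : ∫ t, den q t = Qh +
      ∫ t in {t : ℝ | ¬ 3 * (N : ℝ) < |t|}, den q t := (integral_add_compl hmN hdenq).symm
  rw [en_eq hqT] at hsplit
  set δ : ℝ := 2 * (16 / 625) ^ n with hδd
  have hδ0 : 0 ≤ δ := by positivity
  have hQ0 : 0 ≤ Qh := setIntegral_nonneg hmN fun t _ => den_nonneg q t
  have hQ1 : 2 * Real.pi * en q ≤ (1 + δ) * Qh := by linarith
  have hQ2 : (l - 1) * (2 * Real.pi * en q) - δ * l * (2 * Real.pi * en q) ≤ (l - 1) * Qh := by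
    have h1 : (l - 1) * (2 * Real.pi * en q) ≤ (l - 1) * ((1 + δ) * Qh) :=
      mul_le_mul_of_nonneg_left hQ1 hlog0
    have h2 : Qh ≤ 2 * Real.pi * en q := by
      have : 0 ≤ ∫ t in {t : ℝ | ¬ 3 * (N : ℝ) < |t|}, den q t :=
        setIntegral_nonneg hmN.compl fun t _ => den_nonneg q t
      linarith
    have h3 : (l - 1) * δ * Qh ≤ δ * l * (2 * Real.pi * en q) := by
      have h4 : (l - 1) * δ ≤ δ * l := by nlinarith
      exact mul_le_mul h4 h2 hQ0 (mul_nonneg hδ0 (by linarith))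
    nlinarith
  have hA3 : (l - 2) * en q ≤ 1 / (2 * Real.pi) * ∫ t, den q t * ∑ n ∈ Finset.range N, aw n t := by
    have h1 : (l - 1 - δ * l) * en q ≤ 1 / (2 * Real.pi) * ∫ t, den q t * ∑ n ∈ Finset.range N, aw n t := by
      calc (l - 1 - δ * l) * en q =
            1 / (2 * Real.pi) * ((l - 1) * (2 * Real.pi * en q) - δ * l * (2 * Real.pi * en q)) := by
            field_simp
        _ ≤ 1 / (2 * Real.pi) * ((l - 1) * Qh) := by gcongr
        _ ≤ _ := by gcongr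
    refine le_trans ?_ h1
    apply mul_le_mul_of_nonneg_right _ henq.le
    nlinarith
  have hP : 2 * (‖LT q (1 / 2)‖ * ‖LT q (-1 / 2)‖) ≤ 4 * en q := by
    refine hpo.trans ?_
    calc 4 * (L * Real.exp (L / 2)) * (1 / 100) ^ n * en q =
          4 * (L * Real.exp (L / 2) * (1 / 100) ^ n) * en q := by ring
      _ ≤ 4 * 1 * en q := by gcongr
      _ = 4 * en q := by ring
  have hWq : en q ≤ (∑' ρ : Zr, tm (corr q) ρ).re := by
    refine le_trans ?_ hlow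
    have h1 := mul_le_mul_of_nonneg_right hM henq.le
    nlinarith
  have h5 := mul_le_mul_of_nonneg_right hHB henq.le
  linarith

end Pool.Agent.Helper68.EX.BB

namespace Pool.Agent.Helper76.EX

open Complex Filter Topology Set MeasureTheory
open scoped ComplexConjugate ContDiff
open Pool.Agent.Helper61.W
open Pool.Agent.V11271.LI (Zr mm cfg_zeta zz)
open Pool.Agent.Helper42.WB (en den aw ZZ ZZ_nonneg)

/-- the conclusion of package BA -/
def WL2 : Prop := ∀ ε : ℝ, 0 < ε → ∃ C : ℝ, 0 < C ∧ ∀ g : ℝ → ℂ, TF g → ∀ ℓ : ℝ, 0 ≤ ℓ →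
    (∀ x, x ∉ Icc (-(ℓ / 2)) (ℓ / 2) → g x = 0) → ∀ N : ℕ,
    1 / (2 * Real.pi) * (∫ t, den g t * ∑ n ∈ Finset.range N, aw n t) -
      ((1 + ε) * Real.exp (ℓ / 2) + C * (1 + ℓ) ^ 2) * en g - 2 * (‖LT g (1 / 2)‖ * ‖LT g (-1 / 2)‖) ≤
      (∑' ρ : Zr, tm (corr g) ρ).re

theorem partB2 (hW : WL2) {ε : ℝ} (hε : 0 < ε) : ∃ L0 : ℝ, 1 ≤ L0 ∧ ∀ L : ℝ, L0 ≤ L → ∀ g : ℝ → ℂ, TF g →
    (∀ x, x ∉ Icc (-(L / 2)) (L / 2) → g x = 0) → g ≠ 0 →
    (∀ ρ : Zr, |(ρ : ℂ).im| < Real.exp ((1 + ε) * Real.exp (L / 2)) → (ρ : ℂ).re ≠ 1 / 2 →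
      LT g ((ρ : ℂ) - 1 / 2) = 0 ∨ LT g (1 / 2 - conj (ρ : ℂ)) = 0) →
    0 < (∑' ρ : Zr, tm (corr g) ρ).re := by
  obtain ⟨C, hC0, hC⟩ := hW (ε / 4) (by positivity)
  -- the extra length
  obtain ⟨e, he0, he1, he2⟩ : ∃ e : ℝ, 0 < e ∧ e ≤ 1 / 2 ∧ e * (1 + ε / 4) ≤ ε / 8 := by
    refine ⟨min (1 / 2) (ε / 8 / (1 + ε / 4)), by positivity, min_le_left _ _, ?_⟩
    have h1 : 0 < 1 + ε / 4 := by positivity
    calc min (1 / 2) (ε / 8 / (1 + ε / 4)) * (1 + ε / 4) ≤ (ε / 8 / (1 + ε / 4)) * (1 + ε / 4) :=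
          mul_le_mul_of_nonneg_right (min_le_right _ _) h1.le
      _ = ε / 8 := div_mul_cancel₀ _ h1.ne'
  -- the exponent
  obtain ⟨p, hp2, hp⟩ : ∃ p : ℕ, 2 ≤ p ∧ 3 + 5 / 2 * ε < p * ε := by
    obtain ⟨m, hm⟩ := exists_nat_gt ((3 + 5 / 2 * ε) / ε)
    refine ⟨m + 2, by omega, ?_⟩
    rw [div_lt_iff₀ hε] at hm
    push_cast
    linarith
  have hpr : (2 : ℝ) ≤ p := by exact_mod_cast hp2
  set η : ℝ := (2 * p - 2) * (1 + ε) - (2 * p + 1) * (1 + ε / 2) with hη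
  have hη0 : 0 < η := by
    rw [hη]
    linarith
  have hZ := Pool.Agent.Helper42.WB.ZZ_nonneg
  set K1 : ℝ := 2 * (1920 * p + 2) with hK1
  have hK1p : 0 < K1 := by positivity
  set K2 : ℝ := 128 * (16 * p / e) ^ (2 * p) * K1 ^ (2 * p + 1) * 6 * (ZZ + 1) with hK2
  have hK2p : 0 < K2 := by positivity
  -- asymptotics
  have hexpT : Tendsto (fun L : ℝ => Real.exp (L / 2)) atTop atTop :=
    Real.tendsto_exp_atTop.comp (tendsto_id.atTop_div_const (by norm_num))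
  have ev1 : ∀ᶠ L : ℝ in atTop, C * (2 + L) ^ 2 + 7 ≤ ε / 8 * Real.exp (L / 2) := by
    have h1 := (isLittleO_pow_exp_pos_mul_atTop 2 (b := 1 / 2) (by norm_num)).bound
      (c := ε / 8 / (4 * C + 7)) (by positivity)
    filter_upwards [h1, eventually_ge_atTop 2] with L h1 h2
    rw [Real.norm_of_nonneg (by positivity), Real.norm_of_nonneg (Real.exp_pos _).le] at h1
    have e3 : 1 / 2 * L = L / 2 := by ring
    rw [e3] at h1
    have h3 : (4 * C + 7) * L ^ 2 ≤ ε / 8 * Real.exp (L / 2) := by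
      have h4 : 0 < 4 * C + 7 := by positivity
      calc (4 * C + 7) * L ^ 2 ≤ (4 * C + 7) * (ε / 8 / (4 * C + 7) * Real.exp (L / 2)) := by gcongr
        _ = _ := by field_simp
    have h5 : (2 + L) ^ 2 ≤ 4 * L ^ 2 := by nlinarith
    have h6 : (1 : ℝ) ≤ L ^ 2 := by nlinarith
    nlinarith
  have ev2 : ∀ᶠ L : ℝ in atTop, K2 * Real.exp (L / 2) ^ (2 * p + 3) ≤ Real.exp (η * Real.exp (L / 2)) := by
    have h1 := (isLittleO_pow_exp_pos_mul_atTop (2 * p + 3) hη0).bound (c := 1 / K2) (by positivity)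
    filter_upwards [hexpT.eventually h1] with L h1
    rw [Real.norm_of_nonneg (by positivity), Real.norm_of_nonneg (Real.exp_pos _).le] at h1
    calc K2 * Real.exp (L / 2) ^ (2 * p + 3) ≤ K2 * (1 / K2 * Real.exp (η * Real.exp (L / 2))) := by gcongr
      _ = _ := by field_simp
  obtain ⟨L0, hL0⟩ := eventually_atTop.mp (ev1.and ev2)
  refine ⟨max 1 L0, le_max_left _ _, fun L hL g h hs h0 hz => ?_⟩
  obtain ⟨f1, f2⟩ := hL0 L ((le_max_right _ _).trans hL)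
  have hL1 : 1 ≤ L := (le_max_left _ _).trans hL
  obtain ⟨x, hx⟩ : ∃ x, x = Real.exp (L / 2) := ⟨_, rfl⟩
  rw [← hx] at hz f1 f2
  have hxL : L / 2 + 1 ≤ x := by rw [hx]; exact Real.add_one_le_exp _
  have hx1 : 1 ≤ x := by linarith
  have hLx : L ≤ 2 * x := by linarith
  have hee : Real.exp (e / 2) ≤ 1 + e := by
    have := Real.abs_exp_sub_one_sub_id_le (x := e / 2) (by rw [abs_of_pos (by positivity)]; linarith)
    have h6 := (abs_le.mp this).2
    nlinarith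
  have hhalf : Real.exp ((L + e) / 2) ≤ (1 + e) * x := by
    have e1 : Real.exp ((L + e) / 2) = Real.exp (e / 2) * x := by
      rw [hx, ← Real.exp_add]
      congr 1
      ring
    rw [e1]
    gcongr
  -- the number of terms
  set N : ℕ := ⌈Real.exp ((1 + ε / 2) * x)⌉₊ with hN
  have hN1 : Real.exp ((1 + ε / 2) * x) ≤ N := Nat.le_ceil _
  have hexp1 : 1 ≤ Real.exp ((1 + ε / 2) * x) := Real.one_le_exp (by positivity)
  have hN2 : (N : ℝ) ≤ 2 * Real.exp ((1 + ε / 2) * x) := by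
    have h1 := (Nat.ceil_lt_add_one (Real.exp_pos ((1 + ε / 2) * x)).le).le
    rw [← hN] at h1
    linarith
  have hNpos : 1 ≤ N := Nat.one_le_ceil_iff.mpr (Real.exp_pos _)
  have hNr : (1 : ℝ) ≤ N := by exact_mod_cast hNpos
  have hNx : x + 1 ≤ N := by
    have h1 := Real.add_one_le_exp x
    have h2 : Real.exp x ≤ Real.exp ((1 + ε / 2) * x) := Real.exp_le_exp.mpr (by nlinarith)
    linarith
  set n : ℕ := N * (⌈960 * p * L⌉₊ + 1) with hn
  have hnN : N ≤ n := by rw [hn]; exact Nat.le_mul_of_pos_right _ (by omega)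
  have hn1 : 1 ≤ n := hNpos.trans hnN
  have hnr : (1 : ℝ) ≤ n := by exact_mod_cast hn1
  have hnNr : (N : ℝ) ≤ n := by exact_mod_cast hnN
  have hce : 960 * p * L ≤ ⌈960 * p * L⌉₊ := Nat.le_ceil _
  have hn960 : 960 * p * L * N ≤ n := by
    rw [hn]
    push_cast
    nlinarith
  have hnle : (n : ℝ) ≤ K1 * x * Real.exp ((1 + ε / 2) * x) := by
    have h1 := (Nat.ceil_lt_add_one (show 0 ≤ 960 * p * L by positivity)).le
    have h2 : ((⌈960 * p * L⌉₊ : ℝ) + 1) ≤ (1920 * p + 2) * x := by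
      have h3 : 960 * p * L ≤ 960 * p * (2 * x) := by gcongr
      nlinarith
    calc (n : ℝ) = N * ((⌈960 * p * L⌉₊ : ℝ) + 1) := by rw [hn]; push_cast; ring
      _ ≤ (2 * Real.exp ((1 + ε / 2) * x)) * ((1920 * p + 2) * x) := by gcongr
      _ = _ := by rw [hK1]; ring
  have hlN : (1 + ε / 2) * x ≤ Real.log (N + 1) := by
    rw [Real.le_log_iff_exp_le (by positivity)]
    linarith
  have hM : (1 + ε / 4) * Real.exp ((L + e) / 2) + C * (1 + (L + e)) ^ 2 + 7 ≤ Real.log (N + 1) := by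
    refine le_trans ?_ hlN
    have h1 : (1 + ε / 4) * Real.exp ((L + e) / 2) ≤ (1 + ε / 4) * ((1 + e) * x) := by gcongr
    have h2 : (1 + ε / 4) * ((1 + e) * x) ≤ (1 + ε / 4 + ε / 8) * x := by
      have : (1 + ε / 4) * (1 + e) ≤ 1 + ε / 4 + ε / 8 := by linarith
      nlinarith
    have h3 : C * (1 + (L + e)) ^ 2 ≤ C * (2 + L) ^ 2 := by
      have : 1 + (L + e) ≤ 2 + L := by linarith
      gcongr
    linarith
  have hn2 : (n : ℝ) ≤ 2 ^ n := by exact_mod_cast (Nat.lt_two_pow_self).le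
  have hδ : Real.log (N + 1) * (2 * (16 / 625) ^ n) ≤ 1 := by
    have h1 : Real.log (N + 1) ≤ n := by
      have := Real.log_le_sub_one_of_pos (show (0 : ℝ) < N + 1 by positivity)
      linarith
    calc Real.log (N + 1) * (2 * (16 / 625) ^ n) ≤ 2 ^ n * (2 * (16 / 625) ^ n) := by
          have := h1.trans hn2
          gcongr
      _ = 2 * (32 / 625) ^ n := by
        rw [show (32 : ℝ) / 625 = 2 * (16 / 625) by norm_num, mul_pow]
        ring
      _ ≤ 2 * (32 / 625) ^ 1 := by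
        have : ((32 : ℝ) / 625) ^ n ≤ (32 / 625) ^ 1 := pow_le_pow_of_le_one (by norm_num) (by norm_num) hn1
        linarith
      _ ≤ 1 := by norm_num
  have hpol : L * Real.exp (L / 2) * (1 / 100) ^ n ≤ 1 := by
    rw [← hx]
    have h1 : L * x ≤ n ^ 4 := by
      have h2 : x + 1 ≤ n := hNx.trans hnNr
      have h3 : L * x ≤ 2 * x * x := by gcongr
      have h4 : (4 : ℝ) ≤ (n : ℝ) ^ 2 := by nlinarith
      have h5 : x ^ 2 ≤ (n : ℝ) ^ 2 := by nlinarith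
      nlinarith
    have h2 : (n : ℝ) ^ 4 ≤ 16 ^ n := by
      calc (n : ℝ) ^ 4 ≤ (2 ^ n) ^ 4 := by gcongr
        _ = 16 ^ n := by rw [← pow_mul, mul_comm, pow_mul]; norm_num
    have h3 : (16 : ℝ) ^ n * (1 / 100) ^ n ≤ 1 := by
      rw [← mul_pow]
      exact pow_le_one₀ (by norm_num) (by norm_num)
    calc L * x * (1 / 100) ^ n ≤ 16 ^ n * (1 / 100) ^ n := by
          have := h1.trans h2
          gcongr
      _ ≤ 1 := h3
  -- the filter length
  set b : ℝ := e / (8 * p * n) with hb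
  have hb0 : 0 < b := by positivity
  have hbe : 8 * p * n * b = e := by
    rw [hb]
    field_simp
  have h2b : 2 / b = 16 * p / e * n := by
    rw [hb]
    field_simp
    norm_num
  -- the height
  set H : ℝ := Real.exp ((1 + ε) * x) with hH
  have hH1 : 1 ≤ H := Real.one_le_exp (by positivity)
  have hH0 : 0 < H := by linarith
  set R : ℝ := n * (2 / b) ^ (2 * p) with hR
  have hR0 : 0 ≤ R := by positivity
  have hkey : 128 * R * (6 * x ^ 2 * (ZZ + 1)) ≤ H ^ (2 * p - 2) := by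
    have e1 : R = (16 * p / e) ^ (2 * p) * (n : ℝ) ^ (2 * p + 1) := by
      rw [hR, h2b, mul_pow]
      ring
    have e2 : H ^ (2 * p - 2) = Real.exp (η * x) * Real.exp ((1 + ε / 2) * x) ^ (2 * p + 1) := by
      rw [hH, ← Real.exp_nat_mul, ← Real.exp_nat_mul, ← Real.exp_add]
      congr 1
      rw [Nat.cast_sub (by omega), hη]
      push_cast
      ring
    have h1 : (n : ℝ) ^ (2 * p + 1) ≤ (K1 * x * Real.exp ((1 + ε / 2) * x)) ^ (2 * p + 1) := by gcongr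
    calc 128 * R * (6 * x ^ 2 * (ZZ + 1)) = 128 * (16 * p / e) ^ (2 * p) * 6 * (ZZ + 1) * x ^ 2 * (n : ℝ) ^ (2 * p + 1) := by
          rw [e1]; ring
      _ ≤ 128 * (16 * p / e) ^ (2 * p) * 6 * (ZZ + 1) * x ^ 2 *
          (K1 * x * Real.exp ((1 + ε / 2) * x)) ^ (2 * p + 1) := by gcongr
      _ = K2 * x ^ (2 * p + 3) * Real.exp ((1 + ε / 2) * x) ^ (2 * p + 1) := by
        rw [hK2, mul_pow, mul_pow]
        ring
      _ ≤ Real.exp (η * x) * Real.exp ((1 + ε / 2) * x) ^ (2 * p + 1) := by gcongr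
      _ = _ := e2.symm
  have hHA : 8 * n * (2 / (b * H)) ^ (2 * p) ≤ 1 := by
    have e1 : 8 * n * (2 / (b * H)) ^ (2 * p) = 8 * R / H ^ (2 * p) := by
      rw [hR, ← div_div, div_pow]
      ring
    rw [e1, div_le_one (by positivity)]
    have h1 : H ^ (2 * p - 2) ≤ H ^ (2 * p) := pow_le_pow_right₀ hH1 (by omega)
    refine le_trans ?_ (hkey.trans h1)
    have h2 : 1 ≤ 6 * x ^ 2 * (ZZ + 1) := by nlinarith [mul_nonneg hZ (sq_nonneg x)]
    nlinarith
  have hHB : 64 * n * ((2 / b) ^ (2 * p) / H ^ (2 * p - 2)) * ((L + e) * Real.exp ((L + e) / 2)) * ZZ ≤ 1 / 2 := by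
    have e1 : 64 * n * ((2 / b) ^ (2 * p) / H ^ (2 * p - 2)) * ((L + e) * Real.exp ((L + e) / 2)) * ZZ =
        64 * R * ((L + e) * Real.exp ((L + e) / 2) * ZZ) / H ^ (2 * p - 2) := by
      rw [hR]
      ring
    rw [e1, div_le_iff₀ (by positivity)]
    have h1 : (L + e) * Real.exp ((L + e) / 2) * ZZ ≤ 6 * x ^ 2 * (ZZ + 1) := by
      calc (L + e) * Real.exp ((L + e) / 2) * ZZ ≤ (3 * x) * (2 * x) * (ZZ + 1) := by
            have h2 : Real.exp ((L + e) / 2) ≤ 2 * x := hhalf.trans (by nlinarith)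
            have h3 : L + e ≤ 3 * x := by linarith
            gcongr
            linarith
        _ = _ := by ring
    have h2 : 64 * R * ((L + e) * Real.exp ((L + e) / 2) * ZZ) ≤ 64 * R * (6 * x ^ 2 * (ZZ + 1)) := by gcongr
    linarith
  exact Pool.Agent.Helper68.EX.BB.core2 h h0 (by linarith) he0 he1 hs hNpos hp2 hnN hn960 hb0 hbe
    (by positivity) hC0 hC hM hδ hpol hH1 hHA hHB hz

end Pool.Agent.Helper76.EX
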