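import Pool.Agent.Helper42.WB.Fl

set_option autoImplicit false

/-!
# Package BB, part 1: the sharp filter
-/

namespace Pool.Agent.Helper68.EX.BB

open Complex Filter Topology Set MeasureTheory
open scoped ComplexConjugate ContDiff Convolution
open Pool.Agent.Helper61.W
open Pool.Agent.Helper42.WB (av TF.av av_supp Sb LT_av Sb_eq Sb_zero Sb_symm Sb_line Sb_norm ww ww_le_one ww_nonneg
  ww_le_sq ww_ge den den_nonneg)

variable {g : ℝ → ℂ}

/-- the iterated average -/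
noncomputable def avk (b : ℝ) (k : ℕ) (g : ℝ → ℂ) : ℝ → ℂ := (av b)^[k] g

lemma avk_succ (b : ℝ) (k : ℕ) (g : ℝ → ℂ) : avk b (k + 1) g = av b (avk b k g) := by
  unfold avk
  rw [Function.iterate_succ_apply']

lemma TF_avk (b : ℝ) (h : TF g) (k : ℕ) : TF (avk b k g) := by
  induction k with
  | zero => exact h
  | succ k ih =>
    rw [avk_succ]
    exact TF.av b ih

lemma LT_avk (b : ℝ) (h : TF g) (k : ℕ) (z : ℂ) : LT (avk b k g) z = Sb b z ^ k * LT g z := by
  induction k with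
  | zero => simp [avk]
  | succ k ih =>
    rw [avk_succ, LT_av b (TF_avk b h k), ih, pow_succ]
    ring

lemma avk_supp {b c : ℝ} (hs : ∀ x, x ∉ Icc (-c) c → g x = 0) (k : ℕ) :
    ∀ x, x ∉ Icc (-(c + b * k)) (c + b * k) → avk b k g x = 0 := by
  induction k with
  | zero => simpa [avk] using hs
  | succ k ih =>
    rw [avk_succ]
    have := av_supp (b := b) ih
    have e : c + b * k + b = c + b * ((k + 1 : ℕ) : ℝ) := by push_cast; ring
    rwa [e] at this

/-- the filter -/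
noncomputable def fl (b : ℝ) (p : ℕ) (g : ℝ → ℂ) : ℝ → ℂ := fun x => g x - avk b (2 * p) g x

lemma TF_fl (b : ℝ) (p : ℕ) (h : TF g) : TF (fl b p g) := by
  have h4 := TF_avk b h (2 * p)
  exact ⟨h.smooth.sub h4.smooth, h.supp.sub h4.supp⟩

lemma fl_supp {b c : ℝ} (hb : 0 < b) (p : ℕ) (hs : ∀ x, x ∉ Icc (-c) c → g x = 0) :
    ∀ x, x ∉ Icc (-(c + 2 * p * b)) (c + 2 * p * b) → fl b p g x = 0 := by
  intro x hx
  unfold fl
  have h4 := avk_supp (b := b) hs (2 * p)
  have e : c + b * ((2 * p : ℕ) : ℝ) = c + 2 * p * b := by push_cast; ring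
  rw [e] at h4
  rw [h4 x hx, hs, sub_zero]
  intro h1
  apply hx
  have : 0 ≤ 2 * (p : ℝ) * b := by positivity
  exact ⟨by linarith [h1.1], by linarith [h1.2]⟩

lemma LT_fl (b : ℝ) (p : ℕ) (h : TF g) (z : ℂ) : LT (fl b p g) z = (1 - Sb b z ^ (2 * p)) * LT g z := by
  have h4 := TF_avk b h (2 * p)
  have e : LT (fl b p g) z = LT g z - LT (avk b (2 * p) g) z := by
    unfold Helper61.W.LT fl
    rw [← integral_sub (h.integrable z) (h4.integrable z)]
    congr 1
    funext u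
    ring
  rw [e, LT_avk b h]
  ring

/-- the iterated filter -/
noncomputable def flm (b : ℝ) (p m : ℕ) (g : ℝ → ℂ) : ℝ → ℂ := (fl b p)^[m] g

lemma flm_succ (b : ℝ) (p m : ℕ) (g : ℝ → ℂ) : flm b p (m + 1) g = fl b p (flm b p m g) := by
  unfold flm
  rw [Function.iterate_succ_apply']

lemma TF_flm (b : ℝ) (p : ℕ) (h : TF g) (m : ℕ) : TF (flm b p m g) := by
  induction m with
  | zero => exact h
  | succ m ih =>
    rw [flm_succ]
    exact TF_fl b p ih

lemma LT_flm (b : ℝ) (p : ℕ) (h : TF g) (m : ℕ) (z : ℂ) :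
    LT (flm b p m g) z = (1 - Sb b z ^ (2 * p)) ^ m * LT g z := by
  induction m with
  | zero => simp [flm]
  | succ m ih =>
    rw [flm_succ, LT_fl b p (TF_flm b p h m), ih, pow_succ]
    ring

lemma flm_supp {b c : ℝ} (hb : 0 < b) (p : ℕ) (hs : ∀ x, x ∉ Icc (-c) c → g x = 0) (m : ℕ) :
    ∀ x, x ∉ Icc (-(c + 2 * p * b * m)) (c + 2 * p * b * m) → flm b p m g x = 0 := by
  induction m with
  | zero => simpa [flm] using hs
  | succ m ih =>
    rw [flm_succ]
    have := fl_supp hb p ih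
    have e : c + 2 * p * b * m + 2 * p * b = c + 2 * p * b * ((m + 1 : ℕ) : ℝ) := by push_cast; ring
    rwa [e] at this

/-- the multiplier on the line -/
noncomputable def wp (p : ℕ) (x : ℝ) : ℝ := 1 - Real.sinc x ^ (2 * p)

lemma sinc_sq_le (x : ℝ) : Real.sinc x ^ 2 ≤ 1 := by
  have h1 := Real.abs_sinc_le_one x
  rw [← sq_abs]
  exact pow_le_one₀ (abs_nonneg _) h1

lemma wp_le_one (p : ℕ) (x : ℝ) : wp p x ≤ 1 := by
  unfold wp
  rw [pow_mul]
  have : 0 ≤ (Real.sinc x ^ 2) ^ p := by positivity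
  linarith

lemma wp_nonneg (p : ℕ) (x : ℝ) : 0 ≤ wp p x := by
  unfold wp
  rw [pow_mul]
  have := pow_le_one₀ (n := p) (sq_nonneg _) (sinc_sq_le x)
  linarith

lemma wp_le_sq (p : ℕ) (x : ℝ) : wp p x ≤ p * x ^ 2 := by
  have h1 := ww_le_sq x
  have h2 := sinc_sq_le x
  have h0 := sq_nonneg (Real.sinc x)
  have h3 := one_add_mul_le_pow (a := Real.sinc x ^ 2 - 1) (by linarith) p
  unfold ww at h1
  unfold wp
  rw [pow_mul]
  have e : 1 + (Real.sinc x ^ 2 - 1) = Real.sinc x ^ 2 := by ring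
  rw [e] at h3
  have h4 : 1 - Real.sinc x ^ 2 ≤ x ^ 2 := by
    have : Real.sinc x ^ 4 ≤ Real.sinc x ^ 2 := by nlinarith
    linarith
  have hp : (0 : ℝ) ≤ p := Nat.cast_nonneg p
  have h5 := mul_le_mul_of_nonneg_left h4 hp
  nlinarith

lemma wp_ge {p : ℕ} (hp : 2 ≤ p) {a x : ℝ} (ha : 0 < a) (ha3 : a ≤ 3) (hx : a ≤ |x|) : a ^ 2 / 20 ≤ wp p x := by
  refine (ww_ge ha ha3 hx).trans ?_
  unfold ww wp
  have : Real.sinc x ^ (2 * p) ≤ Real.sinc x ^ 4 := by
    rw [pow_mul, show Real.sinc x ^ 4 = (Real.sinc x ^ 2) ^ 2 by ring]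
    exact pow_le_pow_of_le_one (sq_nonneg _) (sinc_sq_le x) hp
  linarith

lemma Sb_linep {b : ℝ} (hb : 0 < b) (p : ℕ) (t : ℝ) : 1 - Sb b (t * I) ^ (2 * p) = ((wp p (b * t) : ℝ) : ℂ) := by
  rw [Sb_line hb]
  unfold wp
  push_cast
  ring

lemma den_flm {b : ℝ} (hb : 0 < b) (p : ℕ) (h : TF g) (m : ℕ) (t : ℝ) :
    den (flm b p m g) t = den g t * wp p (b * t) ^ (2 * m) := by
  unfold den
  rw [LT_flm b p h, Sb_linep hb, norm_mul, norm_pow, Complex.norm_real, Real.norm_of_nonneg (wp_nonneg _ _),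
    mul_pow, ← pow_mul]
  ring

/-- `sinh x ≤ x cosh x` -/
lemma sinh_le_mul_cosh {x : ℝ} (hx : 0 ≤ x) : Real.sinh x ≤ x * Real.cosh x := by
  have hmono : MonotoneOn (fun y : ℝ => y * Real.cosh y - Real.sinh y) (Ici 0) := by
    apply monotoneOn_of_deriv_nonneg (convex_Ici 0)
    · exact Continuous.continuousOn (by fun_prop)
    · exact Differentiable.differentiableOn (by fun_prop)
    · intro y hy
      rw [interior_Ici] at hy
      have hy0 : 0 < y := hy
      have : HasDerivAt (fun y : ℝ => y * Real.cosh y - Real.sinh y) (1 * Real.cosh y + y * Real.sinh y - Real.cosh y) y :=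
        ((hasDerivAt_id y).mul (Real.hasDerivAt_cosh y)).sub (Real.hasDerivAt_sinh y)
      rw [this.deriv]
      have := Real.sinh_nonneg_iff.mpr hy0.le
      nlinarith
  have := hmono (a := 0) (by simp) (b := x) hx hx
  simp only [Real.cosh_zero, Real.sinh_zero, zero_mul, sub_zero] at this
  linarith

/-- the symbol at the poles -/
lemma Sb_half {b : ℝ} (hb : 0 < b) (p : ℕ) (hpb : p * b ^ 2 ≤ 1) {z : ℂ} (hz : z = 1 / 2 ∨ z = -1 / 2) :
    ‖1 - Sb b z ^ (2 * p)‖ ≤ p * b ^ 2 := by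
  have hS : Sb b z = ((Real.sinh (b / 2) / (b / 2) : ℝ) : ℂ) := by
    have hz0 : z ≠ 0 := by rcases hz with h | h <;> rw [h] <;> norm_num
    rw [Sb_eq hb hz0]
    have hb' : (b : ℂ) ≠ 0 := by exact_mod_cast hb.ne'
    push_cast
    rw [Complex.sinh]
    rcases hz with h | h
    · rw [h, show (b : ℂ) * (1 / 2) = b / 2 by ring]
      field_simp
    · rw [h, show (b : ℂ) * (-1 / 2) = -(b / 2) by ring, neg_neg]
      field_simp
      ring
  have hb2 : 0 < b / 2 := by positivity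
  set s : ℝ := Real.sinh (b / 2) / (b / 2) with hs
  have h1 : 1 ≤ s := by
    rw [hs, le_div_iff₀ hb2, one_mul]
    exact Real.self_le_sinh_iff.mpr hb2.le
  have h2 : s ≤ Real.exp ((b / 2) ^ 2 / 2) := by
    rw [hs, div_le_iff₀ hb2]
    refine (sinh_le_mul_cosh hb2.le).trans ?_
    rw [mul_comm]
    exact mul_le_mul_of_nonneg_right (Real.cosh_le_exp_half_sq _) hb2.le
  have h3 : 1 ≤ s ^ (2 * p) := one_le_pow₀ h1
  have h4 : s ^ (2 * p) ≤ Real.exp (p * b ^ 2 / 4) := by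
    calc s ^ (2 * p) ≤ Real.exp ((b / 2) ^ 2 / 2) ^ (2 * p) := pow_le_pow_left₀ (by linarith) h2 _
      _ = Real.exp (p * b ^ 2 / 4) := by
        rw [← Real.exp_nat_mul]
        congr 1
        push_cast
        ring
  have hy0 : 0 ≤ p * b ^ 2 / 4 := by positivity
  have h5 : Real.exp (p * b ^ 2 / 4) ≤ 1 + p * b ^ 2 := by
    have := Real.abs_exp_sub_one_sub_id_le (x := p * b ^ 2 / 4) (by rw [abs_of_nonneg hy0]; linarith)
    have h6 := (abs_le.mp this).2
    have h7 : (p * b ^ 2 / 4) ^ 2 ≤ p * b ^ 2 / 4 := by nlinarith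
    linarith
  rw [hS]
  have e : (1 : ℂ) - ((s : ℝ) : ℂ) ^ (2 * p) = ((1 - s ^ (2 * p) : ℝ) : ℂ) := by push_cast; rfl
  rw [e, Complex.norm_real, Real.norm_eq_abs, abs_le]
  constructor <;> linarith

end Pool.Agent.Helper68.EX.BB
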