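import Pool.Agent.Helper68.EX.BB2

set_option autoImplicit false
set_option maxHeartbeats 2000000

/-!
# Package BB, part 3: high frequencies
-/

namespace Pool.Agent.Helper68.EX.BB

open Complex Filter Topology Set MeasureTheory
open scoped ComplexConjugate ContDiff
open Pool.Agent.Helper61.W
open Pool.Agent.V11271.LI (Zr mm cfg_zeta zz)
open Pool.Agent.Helper42.WB (Sb den den_nonneg en en_nonneg en_eq remez corr_van integrable_den0 integrable_den1 aw
  aw_cont aw_nonneg aw_le_one aw_sum_ge en_pos LT_sq_le ZZ ZZ_nonneg)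

variable {g : ℝ → ℂ}

/-- the filtered function lives at high frequencies -/
theorem high (h : TF g) {L e b : ℝ} (hL : 0 < L) (he1 : e ≤ 1 / 2)
    (hs : ∀ x, x ∉ Icc (-(L / 2)) (L / 2) → g x = 0)
    {N n p : ℕ} (hN : 1 ≤ N) (hp : 2 ≤ p) (hnN : N ≤ n) (hn : 960 * p * L * N ≤ n)
    (hb0 : 0 < b) (hbe : 8 * p * n * b = e) :
    (∫ t in {t : ℝ | ¬ 3 * (N : ℝ) < |t|}, den (flm b p (2 * n) g) t ≤
      2 * (16 / 625) ^ n * ∫ t in {t : ℝ | 3 * (N : ℝ) < |t|}, den (flm b p (2 * n) g) t) ∧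
    en g ≤ 2 * 16 ^ n / ((b * (30 * p * N)) ^ 2 / 20) ^ (2 * (2 * n)) * en (flm b p (2 * n) g) := by
  have hNr : (1 : ℝ) ≤ N := by exact_mod_cast hN
  have hpr : (2 : ℝ) ≤ p := by exact_mod_cast hp
  have hn1 : 1 ≤ n := hN.trans hnN
  have hnr : (1 : ℝ) ≤ n := by exact_mod_cast hn1
  have hnNr : (N : ℝ) ≤ n := by exact_mod_cast hnN
  set q := flm b p (2 * n) g with hq
  have hqT : TF q := TF_flm b p h (2 * n)
  set A : ℝ := 30 * p * N with hA
  have hA0 : 0 < A := by positivity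
  have hR := remez h hL hA0 (fun u hu => corr_van hs hu) (n := n) (by rw [hA]; linarith)
  have hden := integrable_den0 h
  have hdenq := integrable_den0 hqT
  have hbA0 : 0 < b * A := by positivity
  have hbA3 : b * A ≤ 3 := by
    have h1 : 8 * (b * A) ≤ 30 * e := by
      rw [← hbe, hA]
      have : p * b * N ≤ p * b * n := by gcongr
      linarith
    linarith
  -- low frequencies
  set κ : ℝ := p * (b * (3 * N)) ^ 2 with hκ
  have hκ0 : 0 < κ := by positivity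
  have hlow : ∀ t, ¬ 3 * (N : ℝ) < |t| → den q t ≤ κ ^ (2 * (2 * n)) * den g t := by
    intro t ht
    push Not at ht
    rw [hq, den_flm hb0 p h, mul_comm]
    have h1 : wp p (b * t) ≤ κ := by
      refine (wp_le_sq _ _).trans ?_
      rw [hκ, mul_pow, mul_pow, ← sq_abs t]
      gcongr
    have h2 := den_nonneg g t
    have h3 := wp_nonneg p (b * t)
    gcongr
  -- high frequencies
  set θ : ℝ := (b * A) ^ 2 / 20 with hθ
  have hθ0 : 0 < θ := by positivity
  have hhigh : ∀ t, A < |t| → θ ^ (2 * (2 * n)) * den g t ≤ den q t := by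
    intro t ht
    rw [hq, den_flm hb0 p h, mul_comm]
    have h1 : θ ≤ wp p (b * t) := by
      refine wp_ge hp hbA0 hbA3 ?_
      rw [abs_mul, abs_of_pos hb0]
      gcongr
    have h2 := den_nonneg g t
    gcongr
  have hκθ : κ ≤ 1 / 5 * θ := by
    have e1 : 1 / 5 * θ - κ = 9 * b ^ 2 * N ^ 2 * p * (p - 1) := by
      rw [hκ, hθ, hA]
      ring
    have e2 : 0 ≤ 9 * b ^ 2 * N ^ 2 * p * ((p : ℝ) - 1) := by
      have : (0 : ℝ) ≤ p - 1 := by linarith
      positivity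
    linarith
  have hmA : MeasurableSet {t : ℝ | A < |t|} := measurableSet_lt measurable_const measurable_abs
  have hmN : MeasurableSet {t : ℝ | 3 * (N : ℝ) < |t|} := measurableSet_lt measurable_const measurable_abs
  have hmNc : MeasurableSet {t : ℝ | ¬ 3 * (N : ℝ) < |t|} := hmN.compl
  have h1 : θ ^ (2 * (2 * n)) * ∫ t in {t : ℝ | A < |t|}, den g t ≤ ∫ t in {t : ℝ | A < |t|}, den q t := by
    rw [← integral_const_mul]
    exact setIntegral_mono_on (hden.const_mul _).integrableOn hdenq.integrableOn hmA fun t ht => hhigh t ht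
  have h2 : ∫ t in {t : ℝ | A < |t|}, den q t ≤ ∫ t in {t : ℝ | 3 * (N : ℝ) < |t|}, den q t := by
    apply setIntegral_mono_set hdenq.integrableOn (Eventually.of_forall fun t => den_nonneg q t)
    apply LE.le.eventuallyLE
    intro t ht
    have ht' : A < |t| := ht
    show 3 * (N : ℝ) < |t|
    rw [hA] at ht'
    have : 3 * (N : ℝ) ≤ 30 * p * N := by nlinarith
    linarith
  have h3 : ∫ t in {t : ℝ | 3 * (N : ℝ) < |t|}, den q t ≤ ∫ t, den q t :=
    setIntegral_le_integral hdenq (Eventually.of_forall fun t => den_nonneg q t)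
  have h0 : 0 ≤ ∫ t in {t : ℝ | A < |t|}, den g t := setIntegral_nonneg hmA fun t _ => den_nonneg g t
  refine ⟨?_, ?_⟩
  · have h4 : ∫ t in {t : ℝ | ¬ 3 * (N : ℝ) < |t|}, den q t ≤ κ ^ (2 * (2 * n)) * ∫ t, den g t := by
      have h5 : ∫ t in {t : ℝ | ¬ 3 * (N : ℝ) < |t|}, den q t ≤
          ∫ t in {t : ℝ | ¬ 3 * (N : ℝ) < |t|}, κ ^ (2 * (2 * n)) * den g t :=
        setIntegral_mono_on hdenq.integrableOn (hden.const_mul _).integrableOn hmNc fun t ht => hlow t ht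
      refine h5.trans ?_
      rw [← integral_const_mul]
      exact setIntegral_le_integral (hden.const_mul _)
        (Eventually.of_forall fun t => by have := den_nonneg g t; positivity)
    have h6 : κ ^ (2 * (2 * n)) * (2 * 16 ^ n) ≤ 2 * (16 / 625) ^ n * θ ^ (2 * (2 * n)) := by
      have e1 : ((1 : ℝ) / 5) ^ (2 * (2 * n)) * (2 * 16 ^ n) = 2 * (16 / 625) ^ n := by
        have : 2 * (2 * n) = 4 * n := by ring
        rw [this, pow_mul]
        rw [show ((1 : ℝ) / 5) ^ 4 = 1 / 625 by norm_num]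
        rw [show (16 : ℝ) / 625 = 1 / 625 * 16 by norm_num, mul_pow]
        ring
      calc κ ^ (2 * (2 * n)) * (2 * 16 ^ n) ≤ (1 / 5 * θ) ^ (2 * (2 * n)) * (2 * 16 ^ n) := by gcongr
        _ = ((1 / 5 : ℝ) ^ (2 * (2 * n)) * (2 * 16 ^ n)) * θ ^ (2 * (2 * n)) := by rw [mul_pow]; ring
        _ = _ := by rw [e1]
    calc ∫ t in {t : ℝ | ¬ 3 * (N : ℝ) < |t|}, den q t ≤ κ ^ (2 * (2 * n)) * ∫ t, den g t := h4
      _ ≤ κ ^ (2 * (2 * n)) * (2 * 16 ^ n * ∫ t in {t : ℝ | A < |t|}, den g t) := by gcongr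
      _ = κ ^ (2 * (2 * n)) * (2 * 16 ^ n) * ∫ t in {t : ℝ | A < |t|}, den g t := by ring
      _ ≤ 2 * (16 / 625) ^ n * θ ^ (2 * (2 * n)) * ∫ t in {t : ℝ | A < |t|}, den g t := by gcongr
      _ = 2 * (16 / 625) ^ n * (θ ^ (2 * (2 * n)) * ∫ t in {t : ℝ | A < |t|}, den g t) := by ring
      _ ≤ _ := by
        have := h1.trans h2
        gcongr
  · have hp := Real.pi_pos
    have e1 := en_eq h
    have e2 := en_eq hqT
    have h5 : ∫ t, den g t ≤ 2 * 16 ^ n / θ ^ (2 * (2 * n)) * ∫ t, den q t := by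
      refine hR.trans ?_
      have h6 : ∫ t in {t : ℝ | A < |t|}, den g t ≤ (∫ t, den q t) / θ ^ (2 * (2 * n)) := by
        rw [le_div_iff₀ (by positivity), mul_comm]
        exact h1.trans (h2.trans h3)
      calc 2 * 16 ^ n * ∫ t in {t : ℝ | A < |t|}, den g t ≤ 2 * 16 ^ n * ((∫ t, den q t) / θ ^ (2 * (2 * n))) := by
            gcongr
        _ = _ := by ring
    rw [e1, e2] at h5
    have h7 : 2 * Real.pi * en g ≤ 2 * Real.pi * (2 * 16 ^ n / θ ^ (2 * (2 * n)) * en q) := by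
      linarith
    exact le_of_mul_le_mul_left h7 (by positivity)

/-- the polar part of the filtered function -/
lemma polar (h : TF g) {L b : ℝ} (hL : 0 < L)
    (hs : ∀ x, x ∉ Icc (-(L / 2)) (L / 2) → g x = 0)
    {N n p : ℕ} (hN : 1 ≤ N) (hp : 2 ≤ p) (hn1 : 1 ≤ n)
    (hb0 : 0 < b) (hpb : p * b ^ 2 ≤ 1)
    (hen : en g ≤ 2 * 16 ^ n / ((b * (30 * p * N)) ^ 2 / 20) ^ (2 * (2 * n)) * en (flm b p (2 * n) g)) :
    2 * (‖LT (flm b p (2 * n) g) (1 / 2)‖ * ‖LT (flm b p (2 * n) g) (-1 / 2)‖) ≤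
      4 * (L * Real.exp (L / 2)) * (1 / 100) ^ n * en (flm b p (2 * n) g) := by
  have hNr : (1 : ℝ) ≤ N := by exact_mod_cast hN
  have hpr : (2 : ℝ) ≤ p := by exact_mod_cast hp
  set q := flm b p (2 * n) g with hq
  have hq0 := en_nonneg q
  have h1 : ∀ z : ℂ, z = 1 / 2 ∨ z = -1 / 2 → ‖LT q z‖ ^ 2 ≤ (p * b ^ 2) ^ (2 * (2 * n)) * (L * Real.exp (L / 2) * en g) := by
    intro z hz
    rw [hq, LT_flm b p h, norm_mul, norm_pow, mul_pow, ← pow_mul]
    have h2 := Sb_half hb0 p hpb hz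
    have h3 : ‖LT g z‖ ^ 2 ≤ 2 * (L / 2) * Real.exp (L / 2) * en g := by
      apply LT_sq_le h (by positivity) hs
      rcases hz with hz | hz <;> rw [hz] <;> norm_num
    have h4 : (2 * n * 2) = 2 * (2 * n) := by ring
    rw [h4]
    have h5 : 2 * (L / 2) * Real.exp (L / 2) * en g = L * Real.exp (L / 2) * en g := by ring
    rw [h5] at h3
    gcongr
  have h2 := h1 (1 / 2) (Or.inl rfl)
  have h3 := h1 (-1 / 2) (Or.inr rfl)
  have h4 : 2 * (‖LT q (1 / 2)‖ * ‖LT q (-1 / 2)‖) ≤ 2 * ((p * b ^ 2) ^ (2 * (2 * n)) * (L * Real.exp (L / 2) * en g)) := by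
    nlinarith [sq_nonneg (‖LT q (1 / 2)‖ - ‖LT q (-1 / 2)‖)]
  refine h4.trans ?_
  -- the constant
  have e1 : (b * (30 * p * N)) ^ 2 / 20 = (p * b ^ 2) * (45 * p * N ^ 2) := by ring
  rw [e1, mul_pow] at hen
  have hpb0 : 0 < p * b ^ 2 := by positivity
  have h45 : (90 : ℝ) ≤ 45 * p * N ^ 2 := by
    have : (1 : ℝ) ≤ N ^ 2 := one_le_pow₀ hNr
    nlinarith
  have h90 : (90 : ℝ) ^ (2 * (2 * n)) ≤ (45 * p * N ^ 2) ^ (2 * (2 * n)) := by gcongr
  have h5 : (p * b ^ 2) ^ (2 * (2 * n)) * en g ≤ 2 * (1 / 100) ^ n * en q := by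
    calc (p * b ^ 2) ^ (2 * (2 * n)) * en g ≤ (p * b ^ 2) ^ (2 * (2 * n)) *
          (2 * 16 ^ n / ((p * b ^ 2) ^ (2 * (2 * n)) * (45 * p * N ^ 2) ^ (2 * (2 * n))) * en q) := by gcongr
      _ = 2 * 16 ^ n / (45 * p * N ^ 2) ^ (2 * (2 * n)) * en q := by
        field_simp
      _ ≤ 2 * 16 ^ n / (90 : ℝ) ^ (2 * (2 * n)) * en q := by gcongr
      _ ≤ 2 * (1 / 100) ^ n * en q := by
        have e2 : 2 * 16 ^ n / (90 : ℝ) ^ (2 * (2 * n)) = 2 * (16 / 90 ^ 4) ^ n := by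
          have : 2 * (2 * n) = 4 * n := by ring
          rw [this, pow_mul, div_pow]
          ring
        rw [e2]
        have e3 : ((16 : ℝ) / 90 ^ 4) ^ n ≤ (1 / 100) ^ n := pow_le_pow_left₀ (by norm_num) (by norm_num) n
        exact mul_le_mul_of_nonneg_right (by linarith) hq0
  calc 2 * ((p * b ^ 2) ^ (2 * (2 * n)) * (L * Real.exp (L / 2) * en g)) =
        2 * (L * Real.exp (L / 2)) * ((p * b ^ 2) ^ (2 * (2 * n)) * en g) := by ring
    _ ≤ 2 * (L * Real.exp (L / 2)) * (2 * (1 / 100) ^ n * en q) := by gcongr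
    _ = _ := by ring

end Pool.Agent.Helper68.EX.BB
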