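import Mathlib

set_option autoImplicit false

/-!
# A lower bound for the Gamma function
-/

namespace Pool.Agent.Helper68.EX

open Complex Filter Topology Set MeasureTheory

/-- the beta integral comparison -/
lemma beta_le {a y : ℝ} (ha : 0 < a) : ‖betaIntegral (a : ℂ) (1 + y * I)‖ ≤ 1 / a := by
  have h1 : (betaIntegral (a : ℂ) 1) = ((1 / a : ℝ) : ℂ) := by
    rw [betaIntegral_eval_one_right (by simpa using ha)]
    push_cast
    rfl
  have h2 : IntervalIntegrable (fun x : ℝ => x ^ (a - 1)) volume 0 1 :=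
    intervalIntegral.intervalIntegrable_rpow' (by linarith)
  have h3 : ∫ x in (0:ℝ)..1, x ^ (a - 1) = 1 / a := by
    rw [integral_rpow (Or.inl (by linarith))]
    simp [ha.ne']
  rw [← h3]
  unfold betaIntegral
  refine intervalIntegral.norm_integral_le_of_norm_le zero_le_one ?_ h2
  refine (MeasureTheory.ae_of_all _ fun x => ?_)
  intro hx
  have hx0 : 0 < x := hx.1
  rw [norm_mul, Complex.norm_cpow_eq_rpow_re_of_pos hx0]
  have e1 : ((a : ℂ) - 1).re = a - 1 := by simp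
  rw [e1]
  have e2 : ‖(1 - (x : ℂ)) ^ (1 + y * I - 1)‖ ≤ 1 := by
    have e3 : (1 - (x : ℂ)) = ((1 - x : ℝ) : ℂ) := by push_cast; rfl
    rw [e3]
    rcases eq_or_lt_of_le hx.2 with h | h
    · rw [h]
      by_cases hy : y = 0
      · simp [hy]
      · have e : (1 + (y : ℂ) * I - 1) = y * I := by ring
        have : (y : ℂ) * I ≠ 0 := mul_ne_zero (by exact_mod_cast hy) I_ne_zero
        rw [e, sub_self, Complex.ofReal_zero, Complex.zero_cpow this, norm_zero]
        exact zero_le_one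
    · rw [Complex.norm_cpow_eq_rpow_re_of_pos (by linarith)]
      simp
  have e4 : 0 ≤ x ^ (a - 1) := Real.rpow_nonneg hx0.le _
  calc x ^ (a - 1) * ‖(1 - (x : ℂ)) ^ (1 + y * I - 1)‖ ≤ x ^ (a - 1) * 1 := by gcongr
    _ = _ := mul_one _

/-- `x / sinh x ≥ e^{-|x|}` -/
lemma sinh_le (x : ℝ) : Real.sinh x ≤ x * Real.exp x := by
  have h1 : Real.sinh x = (Real.exp x - Real.exp (-x)) / 2 := Real.sinh_eq x
  have h2 : 1 - 2 * x ≤ Real.exp (-(2 * x)) := by
    have := Real.add_one_le_exp (-(2 * x))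
    linarith
  have h3 : Real.exp (-x) = Real.exp x * Real.exp (-(2 * x)) := by
    rw [← Real.exp_add]
    congr 1
    ring
  rw [h1, h3]
  nlinarith [Real.exp_pos x]

/-- the lower bound on the line `Re = 1` -/
lemma gamma_one (y : ℝ) : Real.exp (-(Real.pi * |y| / 2)) ≤ ‖Complex.Gamma (1 + y * I)‖ := by
  rcases eq_or_ne y 0 with hy | hy
  · rw [hy]
    simp
  have hyI : (y : ℂ) * I ≠ 0 := mul_ne_zero (by exact_mod_cast hy) I_ne_zero
  have h1 : Complex.Gamma (1 + y * I) = y * I * Complex.Gamma (y * I) := by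
    rw [add_comm, Complex.Gamma_add_one _ hyI]
  have h2 : Complex.Gamma (1 - y * I) = (starRingEnd ℂ) (Complex.Gamma (1 + y * I)) := by
    rw [← Complex.Gamma_conj]
    congr 1
    simp
    ring
  have h3 := Complex.Gamma_mul_Gamma_one_sub (y * I)
  have h4 : ‖Complex.Gamma (1 + y * I)‖ ^ 2 = ‖(y : ℂ) * I * (Real.pi / Complex.sin (Real.pi * (y * I)))‖ := by
    rw [← h3, ← mul_assoc, ← h1, norm_mul, h2, RCLike.norm_conj, sq]
  have h5 : Complex.sin (Real.pi * (y * I)) = Real.sinh (Real.pi * y) * I := by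
    rw [← mul_assoc, Complex.sin_mul_I]
    push_cast
    rfl
  have hpy : 0 < Real.pi * |y| := by positivity
  have h6 : ‖(y : ℂ) * I * (Real.pi / Complex.sin (Real.pi * (y * I)))‖ =
      Real.pi * |y| / Real.sinh (Real.pi * |y|) := by
    rw [h5, norm_mul, norm_mul, norm_div, norm_mul, norm_I, Complex.norm_real, Complex.norm_real,
      Complex.norm_real]
    have e1 : ‖Real.sinh (Real.pi * y)‖ = Real.sinh (Real.pi * |y|) := by
      rw [Real.norm_eq_abs, Real.abs_sinh, abs_mul, abs_of_pos Real.pi_pos]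
    rw [e1, Real.norm_eq_abs, Real.norm_eq_abs, abs_of_pos Real.pi_pos]
    ring
  have h7 : 0 < Real.sinh (Real.pi * |y|) := Real.sinh_pos_iff.mpr hpy
  have h8 : Real.exp (-(Real.pi * |y| / 2)) ^ 2 ≤ ‖Complex.Gamma (1 + y * I)‖ ^ 2 := by
    rw [h4, h6, le_div_iff₀ h7, ← Real.exp_nat_mul]
    have := sinh_le (Real.pi * |y|)
    have e : ((2 : ℕ) : ℝ) * (-(Real.pi * |y| / 2)) = -(Real.pi * |y|) := by push_cast; ring
    rw [e]
    calc Real.exp (-(Real.pi * |y|)) * Real.sinh (Real.pi * |y|) ≤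
        Real.exp (-(Real.pi * |y|)) * (Real.pi * |y| * Real.exp (Real.pi * |y|)) := by gcongr
      _ = Real.pi * |y| * (Real.exp (-(Real.pi * |y|)) * Real.exp (Real.pi * |y|)) := by ring
      _ = Real.pi * |y| := by rw [← Real.exp_add]; simp
  exact (pow_le_pow_iff_left₀ (Real.exp_pos _).le (norm_nonneg _) two_ne_zero).mp h8

/-- the lower bound to the right of `Re = 1` -/
lemma gamma_low {a y : ℝ} (ha : 0 < a) :
    Real.Gamma (1 + a) * Real.exp (-(Real.pi * |y| / 2)) ≤ ‖Complex.Gamma (1 + a + y * I)‖ := by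
  have h1 := Complex.Gamma_mul_Gamma_eq_betaIntegral (s := (a : ℂ)) (t := 1 + y * I) (by simpa using ha)
    (by simp)
  have h2 := beta_le (y := y) ha
  have h3 := gamma_one y
  have h4 : Complex.Gamma (a : ℂ) = (Real.Gamma a : ℂ) := Complex.Gamma_ofReal a
  have h5 : ‖Complex.Gamma (a : ℂ)‖ = Real.Gamma a := by
    rw [h4, Complex.norm_real, Real.norm_eq_abs, abs_of_pos (Real.Gamma_pos_of_pos ha)]
  have h6 : Real.Gamma (1 + a) = a * Real.Gamma a := by
    rw [add_comm, Real.Gamma_add_one ha.ne']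
  have h7 : (a : ℂ) + (1 + y * I) = 1 + a + y * I := by ring
  rw [h7] at h1
  have h8 := congrArg norm h1
  rw [norm_mul, norm_mul, h5] at h8
  have hG := Real.Gamma_pos_of_pos ha
  have h9 : Real.Gamma a * Real.exp (-(Real.pi * |y| / 2)) ≤ ‖Complex.Gamma (1 + a + y * I)‖ * (1 / a) := by
    calc Real.Gamma a * Real.exp (-(Real.pi * |y| / 2)) ≤ Real.Gamma a * ‖Complex.Gamma (1 + y * I)‖ := by gcongr
      _ = ‖Complex.Gamma (1 + a + y * I)‖ * ‖betaIntegral (a : ℂ) (1 + y * I)‖ := h8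
      _ ≤ _ := by gcongr
  rw [h6]
  rw [mul_one_div, le_div_iff₀ ha] at h9
  linarith

/-- the constant -/
lemma gamma_const : ∃ c : ℝ, 0 < c ∧ c ≤ 1 ∧ ∀ a : ℝ, 1 / 4 ≤ a → a ≤ 1 / 2 → c ≤ Real.Gamma (1 + a) := by
  have hc : ContinuousOn (fun a : ℝ => Real.Gamma (1 + a)) (Set.Icc (1 / 4) (1 / 2)) := by
    intro a ha
    have h1 : DifferentiableAt ℝ Real.Gamma (1 + a) := by
      apply Real.differentiableAt_Gamma
      intro m hm
      have : (0 : ℝ) ≤ m := Nat.cast_nonneg m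
      linarith [ha.1]
    exact (h1.continuousAt.comp (by fun_prop)).continuousWithinAt
  obtain ⟨a0, ha0, hmin⟩ := isCompact_Icc.exists_isMinOn ⟨1 / 4, by norm_num, by norm_num⟩ hc
  have hpos : 0 < Real.Gamma (1 + a0) := Real.Gamma_pos_of_pos (by linarith [ha0.1])
  exact ⟨min (Real.Gamma (1 + a0)) 1, lt_min hpos one_pos, min_le_right _ _, fun a h1 h2 =>
    (min_le_left _ _).trans (hmin ⟨h1, h2⟩)⟩

end Pool.Agent.Helper68.EX
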