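import Pool.Agent.Helper68.EX.L1
import Pool.Agent.Helper68.EX.Gam

set_option autoImplicit false

/-!
# Package L: lower bound of `ξ` away from a finite set of zeros
-/

namespace Pool.Agent.Helper76.EX

open Complex Filter Topology Set MeasureTheory Metric
open scoped ComplexConjugate
open Pool.Agent.V11271.LI (Zr zz mm)
open H353 (FF FF_anal FF_order_ne_top FF_bound FF_lower)

/-- counting near a height -/
lemma cnt : ∃ C : ℝ, 1 ≤ C ∧ ∀ (y : ℝ) (S : Finset Zr), (∀ ρ ∈ S, |(zz ρ).im - y| ≤ 2) →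
    ∑ ρ ∈ S, mm ρ ≤ C * Real.log (3 + |y|) := by
  obtain ⟨B, hB, hloc⟩ := Pool.Agent.Helper76.LW.cf_zeta.loc
  refine ⟨14 * B + 1, by linarith, fun y S hS => ?_⟩
  have hy := abs_nonneg y
  have hL : 0 ≤ Real.log (3 + |y|) := Real.log_nonneg (by linarith)
  have hmaps : ∀ ρ ∈ S, ⌊(zz ρ).im⌋ ∈ Finset.Icc (⌊y⌋ - 3) (⌊y⌋ + 3) := by
    intro ρ hρ
    have h1 := abs_le.mp (hS ρ hρ)
    rw [Finset.mem_Icc]
    have h2 := Int.floor_le y
    have h3 := Int.lt_floor_add_one y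
    constructor
    · rw [Int.le_floor]
      push_cast
      linarith [h1.1]
    · have h4 : ⌊(zz ρ).im⌋ < ⌊y⌋ + 3 + 1 := by
        rw [Int.floor_lt]
        push_cast
        linarith [h1.2]
      omega
  rw [← Finset.sum_fiberwise_of_maps_to hmaps]
  have h5 : ∀ n ∈ Finset.Icc (⌊y⌋ - 3) (⌊y⌋ + 3),
      ∑ ρ ∈ S.filter (fun ρ => ⌊(zz ρ).im⌋ = n), mm ρ ≤ B * (2 * Real.log (3 + |y|)) := by
    intro n hn
    refine (hloc n _ fun ρ hρ => (Finset.mem_filter.mp hρ).2).trans ?_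
    rw [Finset.mem_Icc] at hn
    have h1 : |(n : ℝ)| ≤ |y| + 4 := by
      have h2 := Int.floor_le y
      have h3 := Int.lt_floor_add_one y
      have h4 : ((⌊y⌋ - 3 : ℤ) : ℝ) ≤ n := by exact_mod_cast hn.1
      have h5 : (n : ℝ) ≤ ((⌊y⌋ + 3 : ℤ) : ℝ) := by exact_mod_cast hn.2
      push_cast at h4 h5
      have h6 := neg_abs_le y
      have h7 := le_abs_self y
      rw [abs_le]
      constructor <;> linarith
    have h2 : Real.log (2 + |(n : ℝ)|) ≤ 2 * Real.log (3 + |y|) := by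
      have e : 2 * Real.log (3 + |y|) = Real.log ((3 + |y|) ^ 2) := by
        rw [Real.log_pow]
        push_cast
        ring
      rw [e]
      apply Real.log_le_log (by positivity)
      nlinarith
    gcongr
  refine (Finset.sum_le_sum h5).trans ?_
  rw [Finset.sum_const, Int.card_Icc]
  have e : (⌊y⌋ + 3 + 1 - (⌊y⌋ - 3)).toNat = 7 := by
    have : (⌊y⌋ + 3 + 1 - (⌊y⌋ - 3)) = 7 := by ring
    rw [this]
    rfl
  rw [e, nsmul_eq_mul]
  push_cast
  nlinarith [mul_nonneg hB.le hL]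

/-- the number of zeros -/
noncomputable def nn (Γ : Finset Zr) : ℕ := ∑ ρ ∈ Γ, analyticOrderNatAt riemannZeta (ρ : ℂ)

lemma nn_cast (Γ : Finset Zr) : (nn Γ : ℝ) = ∑ ρ ∈ Γ, mm ρ := by
  unfold nn mm
  push_cast
  rfl

lemma PG_low {Γ : Finset Zr} {z : ℂ} {t : ℝ} (ht : 0 ≤ t) (h : ∀ ρ ∈ Γ, t ≤ ‖z - zz ρ‖) :
    t ^ nn Γ ≤ ‖PG Γ z‖ := by
  unfold PG nn
  rw [← Finset.prod_pow_eq_pow_sum, norm_prod]
  refine Finset.prod_le_prod (fun ρ _ => pow_nonneg ht _) fun ρ hρ => ?_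
  rw [norm_pow]
  exact pow_le_pow_left₀ ht (h ρ hρ) _

lemma PG_up {Γ : Finset Zr} {z : ℂ} {t : ℝ} (h : ∀ ρ ∈ Γ, ‖z - zz ρ‖ ≤ t) :
    ‖PG Γ z‖ ≤ t ^ nn Γ := by
  unfold PG nn
  rw [← Finset.prod_pow_eq_pow_sum, norm_prod]
  refine Finset.prod_le_prod (fun ρ _ => norm_nonneg _) fun ρ hρ => ?_
  rw [norm_pow]
  exact pow_le_pow_left₀ (norm_nonneg _) (h ρ hρ) _

/-- the Gamma factor from below -/
lemma Gf_low : ∃ c : ℝ, 0 < c ∧ c ≤ 1 ∧ ∀ p : ℂ, 0 ≤ p.re → p.re ≤ 1 / 2 →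
    c * Real.exp (-(Real.pi * |p.im| / 4)) ≤ ‖Gf p‖ := by
  obtain ⟨c, hc, hc1, hG⟩ := Pool.Agent.Helper68.EX.gamma_const
  refine ⟨c / 2, by positivity, by linarith, fun p h0 h1 => ?_⟩
  set a : ℝ := (1 / 2 + p.re) / 2 with ha
  have ha1 : 1 / 4 ≤ a := by rw [ha]; linarith
  have ha2 : a ≤ 1 / 2 := by rw [ha]; linarith
  have hpi : 0 < Real.pi := Real.pi_pos
  unfold Gf
  rw [norm_mul, Complex.norm_cpow_eq_rpow_re_of_pos hpi]
  have e1 : (-((1 / 2 + p) / 2)).re = -a := by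
    rw [ha]
    simp
  have e2 : 1 + (1 / 2 + p) / 2 = 1 + (a : ℂ) + ((p.im / 2 : ℝ) : ℂ) * I := by
    apply Complex.ext
    · rw [ha]
      simp
    · simp
  rw [e1, e2]
  have h2 := Pool.Agent.Helper68.EX.gamma_low (a := a) (y := p.im / 2) (by linarith)
  have h3 := hG a ha1 ha2
  have h4 : 1 / 2 ≤ Real.pi ^ (-a) := by
    have h5 : Real.pi ^ (-(1 / 2) : ℝ) ≤ Real.pi ^ (-a) :=
      Real.rpow_le_rpow_of_exponent_le (by linarith [Real.pi_gt_three]) (by linarith)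
    have h6 : (4 : ℝ) ^ (-(1 / 2) : ℝ) ≤ Real.pi ^ (-(1 / 2) : ℝ) :=
      Real.rpow_le_rpow_of_nonpos hpi (Real.pi_le_four) (by norm_num)
    have h7 : (4 : ℝ) ^ (-(1 / 2) : ℝ) = 1 / 2 := by
      have : (4 : ℝ) = 2 ^ (2 : ℝ) := by norm_num
      rw [this, ← Real.rpow_mul (by norm_num)]
      norm_num
    linarith
  have e3 : Real.pi * |p.im / 2| / 2 = Real.pi * |p.im| / 4 := by
    rw [abs_div, abs_two]
    ring
  rw [e3] at h2
  have h8 := Real.exp_pos (-(Real.pi * |p.im| / 4))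
  calc c / 2 * Real.exp (-(Real.pi * |p.im| / 4)) = 1 / 2 * (c * Real.exp (-(Real.pi * |p.im| / 4))) := by ring
    _ ≤ Real.pi ^ (-a) * (Real.Gamma (1 + a) * Real.exp (-(Real.pi * |p.im| / 4))) := by gcongr
    _ ≤ _ := by gcongr

/-- away from the near zeros -/
lemma core {C : ℝ} (hC1 : 1 ≤ C) (hC : ∀ (y : ℝ) (S : Finset Zr), (∀ ρ ∈ S, |(zz ρ).im - y| ≤ 2) →
    ∑ ρ ∈ S, mm ρ ≤ C * Real.log (3 + |y|)) (p : ℂ) (h0 : 0 ≤ p.re) (h1 : p.re ≤ 1 / 2) :
    ∃ (D : Finset Zr) (BD : ℂ → ℂ), Differentiable ℂ BD ∧ (∀ z, Xi0 z = PG D z * BD z) ∧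
      (∀ ρ ∈ D, |(zz ρ).im - p.im| ≤ 2) ∧
      Real.exp (-(33 * (7 + 4 * C) * Real.log (3 + |p.im|))) * ‖Gf p‖ ≤ ‖BD p‖ := by
  classical
  set y : ℝ := p.im with hy
  have hy0 := abs_nonneg y
  set L : ℝ := Real.log (3 + |y|) with hL
  have hL1 : 1 ≤ L := by
    rw [hL, Real.le_log_iff_exp_le (by linarith)]
    have := Real.exp_one_lt_d9
    linarith
  set c0 : ℂ := (3 / 2 : ℝ) + y * I with hc0
  have c0re : c0.re = 3 / 2 := by rw [hc0]; simp
  have c0im : c0.im = y := by rw [hc0]; simp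
  have hfin := Pool.Agent.Helper76.LW.finite_zeta (|y| + 2) (by linarith)
  obtain ⟨D, hD⟩ : ∃ D : Finset Zr, ∀ ρ : Zr, ρ ∈ D ↔ ‖zz ρ - c0‖ ≤ 8 / 5 := by
    refine ⟨hfin.toFinset.filter (fun ρ => ‖zz ρ - c0‖ ≤ 8 / 5), fun ρ => ?_⟩
    rw [Finset.mem_filter, Set.Finite.mem_toFinset]
    constructor
    · exact fun h => h.2
    · intro h
      refine ⟨?_, h⟩
      have h2 := (Complex.abs_im_le_norm (zz ρ - c0)).trans h
      rw [Complex.sub_im, c0im] at h2
      show |(zz ρ).im| ≤ |y| + 2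
      have h3 : |(zz ρ).im| ≤ |(zz ρ).im - y| + |y| := by
        have := abs_add_le ((zz ρ).im - y) y
        rwa [sub_add_cancel] at this
      linarith
  have hDim : ∀ ρ ∈ D, |(zz ρ).im - y| ≤ 2 := by
    intro ρ hρ
    have h2 := (Complex.abs_im_le_norm (zz ρ - c0)).trans ((hD ρ).mp hρ)
    rw [Complex.sub_im, c0im] at h2
    linarith
  have hN : (nn D : ℝ) ≤ C * L := by
    rw [nn_cast]
    exact hC y D hDim
  have hN0 : (0 : ℝ) ≤ nn D := Nat.cast_nonneg _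
  obtain ⟨BD, hBd, hB1, hB2⟩ := exists_B D
  refine ⟨D, BD, hBd, hB1, hDim, ?_⟩
  set H : ℂ → ℂ := fun z => BD z * Gi z with hH
  have hHd : Differentiable ℂ H := hBd.mul Gi_diff
  have hFF : ∀ z : ℂ, -1 / 2 < z.re → PG D z * H z = FF (1 / 2 + z) := by
    intro z hz
    have e1 := hB1 z
    rw [Xi0_form hz] at e1
    show PG D z * (BD z * Gi z) = _
    rw [← mul_assoc, ← e1]
    have := Gf_mul_Gi hz
    linear_combination FF (1 / 2 + z) * this
  have hre : ∀ z : ℂ, ‖z - c0‖ ≤ 17 / 10 → -1 / 5 ≤ z.re := by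
    intro z hz
    have h2 := (abs_le.mp ((Complex.abs_re_le_norm (z - c0)).trans hz)).1
    rw [Complex.sub_re, c0re] at h2
    linarith
  -- no zeros
  have hne : ∀ z ∈ ball c0 (8 / 5), H z ≠ 0 := by
    intro z hz
    rw [mem_ball, dist_eq_norm] at hz
    have hz1 := hre z (by linarith)
    have hGi : Gi z ≠ 0 := Gi_ne (by linarith)
    refine mul_ne_zero ?_ hGi
    intro h
    obtain ⟨ρ, hρ, hρz⟩ := hB2 z h
    apply hρ
    rw [hD, ← hρz]
    exact hz.le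
  -- upper bound
  have hup : ∀ z ∈ closedBall c0 (17 / 10), ‖H z‖ ≤ 5 * (|y| + 5) ^ 2 * 10 ^ nn D := by
    intro z hz
    have hcl : closure (ball c0 (17 / 10)) = closedBall c0 (17 / 10) := closure_ball c0 (by norm_num)
    refine Complex.norm_le_of_forall_mem_frontier_norm_le (U := ball c0 (17 / 10)) isBounded_ball
      hHd.diffContOnCl (fun w hw => ?_) (by rw [hcl]; exact hz)
    rw [frontier_ball c0 (by norm_num), mem_sphere, dist_eq_norm] at hw
    have hw1 := hre w hw.le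
    have h2 := hFF w (by linarith)
    have h3 : ‖FF (1 / 2 + w)‖ ≤ 5 * (|y| + 5) ^ 2 := by
      refine (FF_bound (1 / 4) (by norm_num) (1 / 2 + w) (by simp; linarith)).trans ?_
      have h4 : ‖1 / 2 + w‖ ≤ |y| + 4 := by
        have e : 1 / 2 + w = (w - c0) + (((2 : ℝ) : ℂ) + y * I) := by
          rw [hc0]
          push_cast
          ring
        rw [e]
        have h5 : ‖((2 : ℝ) : ℂ) + y * I‖ ≤ 2 + |y| := by
          refine (norm_add_le _ _).trans ?_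
          rw [norm_mul, norm_I, mul_one, Complex.norm_real, Complex.norm_real, Real.norm_eq_abs, Real.norm_eq_abs]
          norm_num
        have := norm_add_le (w - c0) (((2 : ℝ) : ℂ) + y * I)
        linarith
      have h6 : (1 + 1 / (1 / 4 : ℝ)) = 5 := by norm_num
      rw [h6]
      have h7 : 1 + ‖1 / 2 + w‖ ≤ |y| + 5 := by linarith
      gcongr
    have h8 : (1 / 10 : ℝ) ^ nn D ≤ ‖PG D w‖ := by
      apply PG_low (by norm_num)
      intro ρ hρ
      have h9 := (hD ρ).mp hρ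
      have h10 : ‖w - c0‖ ≤ ‖w - zz ρ‖ + ‖zz ρ - c0‖ := by
        have := norm_add_le (w - zz ρ) (zz ρ - c0)
        rwa [sub_add_sub_cancel] at this
      linarith
    have h11 : ‖PG D w‖ * ‖H w‖ ≤ 5 * (|y| + 5) ^ 2 := by
      rw [← norm_mul, h2]
      exact h3
    have h12 : (0 : ℝ) < (1 / 10) ^ nn D := by positivity
    have h13 : (1 / 10 : ℝ) ^ nn D * ‖H w‖ ≤ 5 * (|y| + 5) ^ 2 :=
      (mul_le_mul_of_nonneg_right h8 (norm_nonneg _)).trans h11
    have h14 : (1 / 10 : ℝ) ^ nn D * 10 ^ nn D = 1 := by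
      rw [← mul_pow]
      norm_num
    calc ‖H w‖ = ((1 / 10 : ℝ) ^ nn D * ‖H w‖) * 10 ^ nn D := by
          linear_combination -‖H w‖ * h14
      _ ≤ _ := by gcongr
  -- lower bound at the centre
  have hlow : 1 / 2 ≤ 2 ^ nn D * ‖H c0‖ := by
    have h2 := hFF c0 (by rw [c0re]; norm_num)
    have h3 : 1 / 2 ≤ ‖FF (1 / 2 + c0)‖ := FF_lower _ (by
      rw [Complex.add_re, c0re]
      norm_num)
    rw [← h2, norm_mul] at h3
    have h4 : ‖PG D c0‖ ≤ 2 ^ nn D := by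
      apply PG_up
      intro ρ hρ
      have h9 := (hD ρ).mp hρ
      rw [norm_sub_rev]
      linarith
    exact h3.trans (mul_le_mul_of_nonneg_right h4 (norm_nonneg _))
  -- Harnack
  set M1 : ℝ := Real.log 5 + 2 * Real.log (|y| + 5) + nn D * Real.log 10 with hM1
  set M2 : ℝ := Real.log 2 + nn D * Real.log 2 with hM2
  have l2 : 0 < Real.log 2 := Real.log_pos (by norm_num)
  have l5 : 0 < Real.log 5 := Real.log_pos (by norm_num)
  have l10 : 0 < Real.log 10 := Real.log_pos (by norm_num)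
  have ly : 0 < Real.log (|y| + 5) := Real.log_pos (by linarith)
  have eM1 : Real.exp M1 = 5 * (|y| + 5) ^ 2 * 10 ^ nn D := by
    rw [hM1, Real.exp_add, Real.exp_add, Real.exp_log (by norm_num), Real.exp_nat_mul, Real.exp_log (by norm_num)]
    have : Real.exp (2 * Real.log (|y| + 5)) = (|y| + 5) ^ 2 := by
      rw [two_mul, Real.exp_add, Real.exp_log (by linarith), sq]
    rw [this]
  have eM2 : Real.exp M2 = 2 * 2 ^ nn D := by
    rw [hM2, Real.exp_add, Real.exp_log (by norm_num), Real.exp_nat_mul, Real.exp_log (by norm_num)]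
  have hM1p : 0 < M1 := by positivity
  have hM2p : 0 < M2 := by positivity
  have hball : p ∈ ball c0 (8 / 5) ∧ ‖p - c0‖ ≤ 3 / 2 := by
    have e : p - c0 = ((p.re - 3 / 2 : ℝ) : ℂ) := by
      apply Complex.ext
      · rw [Complex.sub_re, c0re, Complex.ofReal_re]
      · rw [Complex.sub_im, c0im, Complex.ofReal_im]
        simp [hy]
    have h2 : ‖p - c0‖ ≤ 3 / 2 := by
      rw [e, Complex.norm_real, Real.norm_eq_abs, abs_le]
      constructor <;> linarith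
    exact ⟨by rw [mem_ball, dist_eq_norm]; linarith, h2⟩
  have hhar := Pool.Agent.Helper242.RK.harnack (f := H) (c := c0) (r := 8 / 5) (M1 := M1) (M2 := M2)
    (by norm_num) hHd.differentiableOn hne (fun z hz => by
      rw [eM1]
      exact hup z (ball_subset_closedBall (ball_subset_ball (by norm_num) hz))) (by
      rw [Real.exp_neg, eM2, inv_le_comm₀ (by positivity) (by
        by_contra hcon
        push Not at hcon
        have h2 : ‖H c0‖ = 0 := le_antisymm hcon (norm_nonneg _)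
        rw [h2] at hlow
        norm_num at hlow)]
      have h3 : 0 < ‖H c0‖ := by
        by_contra hcon
        push Not at hcon
        have h2 : ‖H c0‖ = 0 := le_antisymm hcon (norm_nonneg _)
        rw [h2] at hlow
        norm_num at hlow
      rw [inv_le_iff_one_le_mul₀ h3]
      linarith) (by linarith) hball.1
  have hexp : -(33 * (7 + 4 * C) * L) ≤ -M2 - 2 * (M1 + M2) * (8 / 5) / (8 / 5 - ‖p - c0‖) := by
    have h2 : 1 / 10 ≤ 8 / 5 - ‖p - c0‖ := by linarith [hball.2]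
    have h3 : 2 * (M1 + M2) * (8 / 5) / (8 / 5 - ‖p - c0‖) ≤ 32 * (M1 + M2) := by
      rw [div_le_iff₀ (by linarith)]
      have : 0 < M1 + M2 := by linarith
      nlinarith
    have h4 : M1 + M2 ≤ (7 + 4 * C) * L := by
      have g5 : Real.log 5 ≤ 2 := by
        rw [Real.log_le_iff_le_exp (by norm_num)]
        have h2 : Real.exp 2 = Real.exp 1 ^ 2 := by rw [← Real.exp_nat_mul]; norm_num
        have h3 := Real.exp_one_gt_d9
        rw [h2]
        nlinarith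
      have g10 : Real.log 10 ≤ 3 := by
        rw [Real.log_le_iff_le_exp (by norm_num)]
        have h2 : Real.exp 3 = Real.exp 1 ^ 3 := by rw [← Real.exp_nat_mul]; norm_num
        have h3 := Real.exp_one_gt_d9
        rw [h2]
        calc (10 : ℝ) ≤ 2.7 ^ 3 := by norm_num
          _ ≤ _ := by
            gcongr
            linarith
      have g2 : Real.log 2 ≤ 1 := by
        have := Real.log_two_lt_d9
        linarith
      have gy : Real.log (|y| + 5) ≤ 2 * L := by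
        have e : 2 * L = Real.log ((3 + |y|) ^ 2) := by
          rw [Real.log_pow, hL]
          push_cast
          ring
        rw [e]
        apply Real.log_le_log (by positivity)
        nlinarith
      have h5 : nn D * Real.log 10 ≤ C * L * 3 := by gcongr
      have h6 : nn D * Real.log 2 ≤ C * L * 1 := by gcongr
      rw [hM1, hM2]
      nlinarith
    have : 0 < (7 + 4 * C) * L := by positivity
    linarith
  have hHp : Real.exp (-(33 * (7 + 4 * C) * L)) ≤ ‖H p‖ := (Real.exp_le_exp.mpr hexp).trans hhar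
  have e : BD p = H p * Gf p := by
    have := Gf_mul_Gi (z := p) (by linarith)
    show BD p = BD p * Gi p * Gf p
    linear_combination -BD p * this
  rw [e, norm_mul]
  gcongr

/-- comparison of two divisions -/
lemma compare {Γ D : Finset Zr} {B BD : ℂ → ℂ} (hB : Differentiable ℂ B) (hBD : Differentiable ℂ BD)
    (h1 : ∀ z, Xi0 z = PG Γ z * B z) (h2 : ∀ z, Xi0 z = PG D z * BD z) (p : ℂ) :
    ∃ Γ' D' : Finset Zr, (∀ ρ ∈ Γ', ρ ∈ Γ) ∧ (∀ ρ ∈ D', ρ ∈ D ∧ ρ ∉ Γ) ∧ PG Γ' p * B p = PG D' p * BD p := by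
  classical
  refine ⟨Γ \ D, D \ Γ, fun ρ hρ => (Finset.mem_sdiff.mp hρ).1, fun ρ hρ => Finset.mem_sdiff.mp hρ, ?_⟩
  have e1 : ∀ z, PG Γ z = PG (Γ ∩ D) z * PG (Γ \ D) z := by
    intro z
    unfold PG
    exact (Finset.prod_inter_mul_prod_sdiff _ _ _).symm
  have e2 : ∀ z, PG D z = PG (Γ ∩ D) z * PG (D \ Γ) z := by
    intro z
    unfold PG
    rw [Finset.inter_comm]
    exact (Finset.prod_inter_mul_prod_sdiff _ _ _).symm
  have t1 : Tendsto (fun z => PG (Γ \ D) z * B z) (𝓝[≠] p) (𝓝 (PG (Γ \ D) p * B p)) :=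
    (((PG_diff _).mul hB).continuous.tendsto p).mono_left nhdsWithin_le_nhds
  have t2 : Tendsto (fun z => PG (D \ Γ) z * BD z) (𝓝[≠] p) (𝓝 (PG (D \ Γ) p * BD p)) :=
    (((PG_diff _).mul hBD).continuous.tendsto p).mono_left nhdsWithin_le_nhds
  refine tendsto_nhds_unique_of_eventuallyEq t1 t2 ?_
  have hfin : ((zz '' ((Γ ∩ D : Finset Zr) : Set Zr)) \ {p}).Finite :=
    ((Finset.finite_toSet _).image _).subset Set.sdiff_subset
  have hnh : ((zz '' ((Γ ∩ D : Finset Zr) : Set Zr)) \ {p})ᶜ ∈ 𝓝 p := by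
    apply hfin.isClosed.isOpen_compl.mem_nhds
    simp
  filter_upwards [nhdsWithin_le_nhds hnh, self_mem_nhdsWithin] with z hz hzp
  have hne : PG (Γ ∩ D) z ≠ 0 := by
    apply PG_ne
    intro ρ hρ h
    apply hz
    refine ⟨⟨ρ, by exact_mod_cast hρ, h.symm⟩, ?_⟩
    exact hzp
  have h3 := (h1 z).symm.trans (h2 z)
  rw [e1, e2, mul_assoc, mul_assoc] at h3
  exact mul_left_cancel₀ hne h3

theorem local_lower : ∃ A : ℝ, 1 ≤ A ∧ ∀ (p : ℂ) (Γ : Finset Zr) (B : ℂ → ℂ) (r : ℝ),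
    0 ≤ p.re → p.re ≤ 1 / 2 → 0 < r → r ≤ 1 → Differentiable ℂ B → (∀ z, Xi0 z = PG Γ z * B z) →
    (∀ ρ ∈ Γ, ‖zz ρ - p‖ ≤ 2) → (∀ ρ, ρ ∉ Γ → r ≤ ‖zz ρ - p‖) →
    Real.exp (-(A * Real.log (3 + |p.im|) * (1 + Real.log (1 / r))) - Real.pi * |p.im| / 4) ≤ ‖B p‖ := by
  obtain ⟨C, hC1, hC⟩ := cnt
  obtain ⟨c, hc, hc1, hGf⟩ := Gf_low
  have hlc : 0 ≤ Real.log (1 / c) := Real.log_nonneg (by rw [le_div_iff₀ hc]; linarith)
  refine ⟨C + 33 * (7 + 4 * C) + Real.log (1 / c), by nlinarith, ?_⟩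
  intro p Γ B r h0 h1 hr0 hr1 hB hXB hΓ hnΓ
  obtain ⟨D, BD, hBD, hXD, hDim, hlow⟩ := core hC1 hC p h0 h1
  obtain ⟨Γ', D', hΓ', hD', hcmp⟩ := compare hB hBD hXB hXD p
  set L : ℝ := Real.log (3 + |p.im|) with hL
  have hy0 := abs_nonneg p.im
  have hL1 : 1 ≤ L := by
    rw [hL, Real.le_log_iff_exp_le (by linarith)]
    have := Real.exp_one_lt_d9
    linarith
  set lr : ℝ := Real.log (1 / r) with hlr
  have hlr0 : 0 ≤ lr := Real.log_nonneg (by rw [le_div_iff₀ hr0]; linarith)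
  have hN1 : (nn Γ' : ℝ) ≤ C * L := by
    rw [nn_cast]
    apply hC
    intro ρ hρ
    have := (Complex.abs_im_le_norm (zz ρ - p)).trans (hΓ ρ (hΓ' ρ hρ))
    rwa [Complex.sub_im] at this
  have hN2 : (nn D' : ℝ) ≤ C * L := by
    rw [nn_cast]
    apply hC
    intro ρ hρ
    exact hDim ρ (hD' ρ hρ).1
  have g1 : ‖PG Γ' p‖ ≤ Real.exp (C * L) := by
    refine (PG_up (t := 2) fun ρ hρ => ?_).trans ?_
    · rw [norm_sub_rev]
      exact hΓ ρ (hΓ' ρ hρ)
    · have h2 : (2 : ℝ) ≤ Real.exp 1 := by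
        have := Real.exp_one_gt_d9
        linarith
      calc (2 : ℝ) ^ nn Γ' ≤ Real.exp 1 ^ nn Γ' := by gcongr
        _ = Real.exp (nn Γ') := by rw [← Real.exp_nat_mul, mul_one]
        _ ≤ _ := Real.exp_le_exp.mpr hN1
  have g2 : Real.exp (-(C * L * lr)) ≤ ‖PG D' p‖ := by
    refine le_trans ?_ (PG_low hr0.le fun ρ hρ => ?_)
    · have e : r ^ nn D' = Real.exp (-(nn D' * lr)) := by
        rw [hlr, one_div, Real.log_inv, mul_neg, neg_neg, Real.exp_nat_mul, Real.exp_log hr0]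
      rw [e, Real.exp_le_exp]
      have : (nn D' : ℝ) * lr ≤ C * L * lr := by gcongr
      linarith
    · rw [norm_sub_rev]
      exact hnΓ ρ (hD' ρ hρ).2
  have g3 : Real.exp (-(Real.log (1 / c) * L)) * Real.exp (-(Real.pi * |p.im| / 4)) ≤ ‖Gf p‖ := by
    refine le_trans ?_ (hGf p h0 h1)
    gcongr
    have e : c = Real.exp (-(Real.log (1 / c))) := by
      rw [one_div, Real.log_inv, neg_neg, Real.exp_log hc]
    conv_rhs => rw [e]
    rw [Real.exp_le_exp]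
    nlinarith
  have g4 : ‖PG D' p‖ * ‖BD p‖ = ‖PG Γ' p‖ * ‖B p‖ := by
    rw [← norm_mul, ← norm_mul, hcmp]
  have g5 : Real.exp (-(C * L * lr)) * (Real.exp (-(33 * (7 + 4 * C) * L)) *
      (Real.exp (-(Real.log (1 / c) * L)) * Real.exp (-(Real.pi * |p.im| / 4)))) ≤ Real.exp (C * L) * ‖B p‖ := by
    calc _ ≤ ‖PG D' p‖ * ‖BD p‖ := by
          refine mul_le_mul g2 ?_ (by positivity) (norm_nonneg _)
          exact (mul_le_mul_of_nonneg_left g3 (Real.exp_pos _).le).trans hlow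
      _ = ‖PG Γ' p‖ * ‖B p‖ := g4
      _ ≤ _ := by gcongr
  rw [← Real.exp_add, ← Real.exp_add, ← Real.exp_add, ← div_le_iff₀' (Real.exp_pos _), ← Real.exp_sub] at g5
  refine le_trans (Real.exp_le_exp.mpr ?_) g5
  have k1 : 0 ≤ (33 * (7 + 4 * C) + Real.log (1 / c)) * L * lr := by positivity
  nlinarith

end Pool.Agent.Helper76.EX
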