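import Pool.Agent.Helper76.EX.Defs
import Pool.Agent.Helper76.LW.Zeta
import Pool.Graph.R_seed8.Helper242.RK.Harnack

set_option autoImplicit false

/-!
# Package L, first part: `Xi0` and its zeros, division by finitely many zeros
-/

namespace Pool.Agent.Helper76.EX

open Complex Filter Topology Set MeasureTheory
open scoped ComplexConjugate
open Pool.Agent.V11271.LI (Zr zz mm)
open Pool.Agent.Helper242.KK (Ph FT FT_Ph FT_neg Ph_even Ph_upper continuous_Ph differentiable_FT)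
open H353 (FF FF_anal FF_order_ne_top)

/-- the polynomial of the zeros in a finite set -/
noncomputable def PG (Γ : Finset Zr) (z : ℂ) : ℂ :=
  ∏ ρ ∈ Γ, (z - zz ρ) ^ analyticOrderNatAt riemannZeta (ρ : ℂ)

lemma Xi0_diff : Differentiable ℂ Xi0 := by
  obtain ⟨A, -, hA⟩ := Ph_upper
  have h := differentiable_FT continuous_Ph hA
  have e : Xi0 = fun z => FT Ph (-(I * z)) := funext Xi0_eq_FT
  rw [e]
  exact h.comp (by fun_prop)

lemma Xi0_even (z : ℂ) : Xi0 (-z) = Xi0 z := by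
  rw [Xi0_eq_FT, Xi0_eq_FT, ← FT_neg Ph_even]
  congr 1
  ring

/-- the Gamma factor -/
noncomputable def Gf (z : ℂ) : ℂ := (Real.pi : ℂ) ^ (-((1 / 2 + z) / 2)) * Complex.Gamma (1 + (1 / 2 + z) / 2)

/-- its inverse -/
noncomputable def Gi (z : ℂ) : ℂ := (Real.pi : ℂ) ^ ((1 / 2 + z) / 2) * (Complex.Gamma (1 + (1 / 2 + z) / 2))⁻¹

lemma Gi_diff : Differentiable ℂ Gi := by
  have h1 : Differentiable ℂ fun z : ℂ => (Complex.Gamma (1 + (1 / 2 + z) / 2))⁻¹ :=
    Complex.differentiable_one_div_Gamma.comp (by fun_prop)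
  have hpi : (Real.pi : ℂ) ≠ 0 := by exact_mod_cast Real.pi_ne_zero
  have h2 : Differentiable ℂ fun z : ℂ => (Real.pi : ℂ) ^ ((1 / 2 + z) / 2) := by
    intro z
    exact DifferentiableAt.const_cpow (by fun_prop) (Or.inl hpi)
  exact h2.mul h1

lemma Gm_ne {z : ℂ} (hz : -1 / 2 < z.re) : Complex.Gamma (1 + (1 / 2 + z) / 2) ≠ 0 := by
  apply Complex.Gamma_ne_zero_of_re_pos
  simp
  linarith

lemma Gf_mul_Gi {z : ℂ} (hz : -1 / 2 < z.re) : Gf z * Gi z = 1 := by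
  have hpi : (Real.pi : ℂ) ≠ 0 := by exact_mod_cast Real.pi_ne_zero
  have h1 := Gm_ne hz
  unfold Gf Gi
  rw [mul_mul_mul_comm, mul_inv_cancel₀ h1, mul_one, ← Complex.cpow_add _ _ hpi]
  simp

lemma Gf_ne {z : ℂ} (hz : -1 / 2 < z.re) : Gf z ≠ 0 := left_ne_zero_of_mul_eq_one (Gf_mul_Gi hz)
lemma Gi_ne {z : ℂ} (hz : -1 / 2 < z.re) : Gi z ≠ 0 := right_ne_zero_of_mul_eq_one (Gf_mul_Gi hz)

lemma Gf_diffAt {z : ℂ} (hz : -1 / 2 < z.re) : DifferentiableAt ℂ Gf z := by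
  have h1 : Gf =ᶠ[𝓝 z] fun w => (Gi w)⁻¹ := by
    have : {w : ℂ | -1 / 2 < w.re} ∈ 𝓝 z := (isOpen_lt continuous_const Complex.continuous_re).mem_nhds hz
    filter_upwards [this] with w hw
    exact eq_inv_of_mul_eq_one_left (Gf_mul_Gi hw)
  exact ((Gi_diff z).inv (Gi_ne hz)).congr_of_eventuallyEq h1

lemma Xi0_form_ne {z : ℂ} (hz : -1 / 2 < z.re) (hz1 : z ≠ 1 / 2) : Xi0 z = Gf z * FF (1 / 2 + z) := by
  have hre : 0 < (1 / 2 + z).re := by simp; linarith
  have h0 : (1 / 2 + z) ≠ 0 := by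
    intro h
    rw [h] at hre
    simp at hre
  have h1 : (1 / 2 + z) ≠ 1 := by
    intro h
    apply hz1
    linear_combination h
  rw [Xi0_eq_FT, FT_Ph (1 / 2 + z) (-(I * z)) (by rw [mul_neg, ← mul_assoc, I_mul_I]; ring) h0 h1]
  have hG : Gammaℝ (1 / 2 + z) ≠ 0 := Gammaℝ_ne_zero_of_re_pos hre
  have h2 : completedRiemannZeta (1 / 2 + z) = riemannZeta (1 / 2 + z) * Gammaℝ (1 / 2 + z) := by
    rw [riemannZeta_def_of_ne_zero h0, div_mul_cancel₀ _ hG]
  rw [h2, Gammaℝ_def, Pool.Agent.V11271.LI.FF_of_ne h1]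
  unfold Gf
  have h3 : Complex.Gamma (1 + (1 / 2 + z) / 2) = (1 / 2 + z) / 2 * Complex.Gamma ((1 / 2 + z) / 2) := by
    rw [add_comm 1 ((1 / 2 + z) / 2), Complex.Gamma_add_one]
    exact div_ne_zero h0 two_ne_zero
  rw [h3, neg_div]
  ring

lemma FF_diff0 : Differentiable ℂ FF := fun z => (FF_anal z).differentiableAt

lemma Xi0_form {z : ℂ} (hz : -1 / 2 < z.re) : Xi0 z = Gf z * FF (1 / 2 + z) := by
  by_cases hz1 : z = 1 / 2
  · have hd : DifferentiableAt ℂ (fun z : ℂ => Gf z * FF (1 / 2 + z)) z := by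
      apply (Gf_diffAt hz).mul
      exact (FF_diff0 _).comp z (by fun_prop)
    have t1 : Tendsto Xi0 (𝓝[≠] z) (𝓝 (Xi0 z)) := ((Xi0_diff z).continuousAt.tendsto).mono_left nhdsWithin_le_nhds
    have t2 : Tendsto (fun z : ℂ => Gf z * FF (1 / 2 + z)) (𝓝[≠] z) (𝓝 (Gf z * FF (1 / 2 + z))) :=
      hd.continuousAt.tendsto.mono_left nhdsWithin_le_nhds
    refine tendsto_nhds_unique_of_eventuallyEq t1 t2 ?_
    have : {w : ℂ | -1 / 2 < w.re} ∈ 𝓝[≠] z :=
      nhdsWithin_le_nhds ((isOpen_lt continuous_const Complex.continuous_re).mem_nhds hz)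
    filter_upwards [this, self_mem_nhdsWithin] with w hw hw1
    exact Xi0_form_ne hw (by rw [← hz1]; exact hw1)
  · exact Xi0_form_ne hz hz1

/-- the zeros of `Xi0` -/
lemma Xi0_zero {z : ℂ} (h : Xi0 z = 0) : ∃ ρ : Zr, z = zz ρ := by
  have key : ∀ z : ℂ, -1 / 2 < z.re → Xi0 z = 0 → FF (1 / 2 + z) = 0 ∧ (1 / 2 + z).re < 1 := by
    intro z hz h
    rw [Xi0_form hz] at h
    have h2 := (mul_eq_zero.mp h).resolve_left (Gf_ne hz)
    refine ⟨h2, ?_⟩
    by_contra hcon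
    push Not at hcon
    have h1 : (1 / 2 + z) ≠ 1 := by
      intro h1
      rw [h1] at h2
      rw [show FF 1 = 1 from ZU.J_g2b.FF_one] at h2
      exact one_ne_zero h2
    rw [Pool.Agent.V11271.LI.FF_of_ne h1] at h2
    exact riemannZeta_ne_zero_of_one_le_re hcon ((mul_eq_zero.mp h2).resolve_left (sub_ne_zero.mpr h1))
  have hz : -1 / 2 < z.re := by
    by_contra hcon
    push Not at hcon
    have h1 := key (-z) (by rw [Complex.neg_re]; linarith) (by rw [Xi0_even]; exact h)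
    have h2 := h1.2
    simp at h2
    linarith
  obtain ⟨h1, h2⟩ := key z hz h
  have h3 : (1 / 2 + z) ≠ 1 := by
    intro h
    rw [h] at h2
    simp at h2
  rw [Pool.Agent.V11271.LI.FF_of_ne h3] at h1
  refine ⟨⟨1 / 2 + z, (mul_eq_zero.mp h1).resolve_left (sub_ne_zero.mpr h3), ?_, h2⟩, ?_⟩
  · simp
    linarith
  · unfold zz
    ring

lemma zz_inj : Function.Injective zz := by
  intro a b h
  unfold zz at h
  exact Subtype.ext (sub_left_inj.mp h)

/-- the order of a zero of `Xi0` -/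
lemma Xi0_ord (ρ : Zr) : analyticOrderAt Xi0 (zz ρ) = (analyticOrderNatAt riemannZeta (ρ : ℂ) : ℕ) := by
  have h1 : analyticOrderAt FF (ρ : ℂ) = (analyticOrderNatAt riemannZeta (ρ : ℂ) : ℕ) := by
    have h2 := Pool.Agent.V11271.LI.ord_FF ρ.ne_one
    rw [h2]
    unfold analyticOrderNatAt
    rw [ENat.natCast_toNat]
    rw [← h2]
    exact FF_order_ne_top _
  rw [(FF_anal (ρ : ℂ)).analyticOrderAt_eq_natCast] at h1
  obtain ⟨g, hg, hg0, hgz⟩ := h1
  rw [(Xi0_diff.analyticAt (zz ρ)).analyticOrderAt_eq_natCast]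
  have hre : -1 / 2 < (zz ρ).re := by
    rw [Pool.Agent.V11271.LI.zz_re]
    linarith [ρ.2.2.1]
  have e : 1 / 2 + zz ρ = (ρ : ℂ) := by unfold zz; ring
  have hU : {w : ℂ | -1 / 2 < w.re} ∈ 𝓝 (zz ρ) :=
    (isOpen_lt continuous_const Complex.continuous_re).mem_nhds hre
  refine ⟨fun z => Gf z * g (1 / 2 + z), ?_, ?_, ?_⟩
  · have hG : AnalyticAt ℂ Gf (zz ρ) := by
      have : DifferentiableOn ℂ Gf {w : ℂ | -1 / 2 < w.re} := fun w hw => (Gf_diffAt hw).differentiableWithinAt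
      exact this.analyticAt hU
    have h2 : AnalyticAt ℂ (fun z : ℂ => g (1 / 2 + z)) (zz ρ) := by
      apply AnalyticAt.fun_comp (g := g) (f := fun z : ℂ => 1 / 2 + z)
      · rw [e]; exact hg
      · fun_prop
    exact hG.mul h2
  · show Gf (zz ρ) * g (1 / 2 + zz ρ) ≠ 0
    rw [e]
    exact mul_ne_zero (Gf_ne hre) hg0
  · have hT : Tendsto (fun z : ℂ => 1 / 2 + z) (𝓝 (zz ρ)) (𝓝 (ρ : ℂ)) := by
      rw [← e]
      exact Continuous.tendsto (by fun_prop) _
    filter_upwards [hU, hT.eventually hgz] with z hz h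
    rw [Xi0_form hz, h, ← e]
    simp only [smul_eq_mul]
    have : 1 / 2 + z - (1 / 2 + zz ρ) = z - zz ρ := by ring
    rw [this]
    ring

/-- division of an entire function by its exact zero -/
lemma fac {B : ℂ → ℂ} (hB : Differentiable ℂ B) {a : ℂ} {m : ℕ} (h : analyticOrderAt B a = m) :
    ∃ B' : ℂ → ℂ, Differentiable ℂ B' ∧ (∀ z, B z = (z - a) ^ m * B' z) ∧ B' a ≠ 0 := by
  classical
  rw [(hB.analyticAt a).analyticOrderAt_eq_natCast] at h
  obtain ⟨g, hg, hg0, hgz⟩ := h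
  set B' : ℂ → ℂ := Function.update (fun z => B z / (z - a) ^ m) a (g a) with hB'
  have h1 : ∀ z, z ≠ a → B' z = B z / (z - a) ^ m := by
    intro z hz
    rw [hB', Function.update_of_ne hz]
  have h2 : B' a = g a := by rw [hB', Function.update_self]
  have h3 : B' =ᶠ[𝓝 a] g := by
    filter_upwards [hgz] with z hz
    by_cases hza : z = a
    · rw [hza, h2]
    · rw [h1 z hza, hz, smul_eq_mul, mul_div_cancel_left₀]
      exact pow_ne_zero _ (sub_ne_zero.mpr hza)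
  refine ⟨B', ?_, ?_, ?_⟩
  · intro z
    by_cases hza : z = a
    · rw [hza]
      exact hg.differentiableAt.congr_of_eventuallyEq h3
    · have h4 : B' =ᶠ[𝓝 z] fun z => B z / (z - a) ^ m := by
        filter_upwards [isOpen_ne.mem_nhds hza] with w hw
        exact h1 w hw
      refine DifferentiableAt.congr_of_eventuallyEq ?_ h4
      exact (hB z).div (by fun_prop) (pow_ne_zero _ (sub_ne_zero.mpr hza))
  · intro z
    by_cases hza : z = a
    · have := hgz.self_of_nhds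
      rw [hza, this, h2, smul_eq_mul]
    · rw [h1 z hza, mul_div_cancel₀]
      exact pow_ne_zero _ (sub_ne_zero.mpr hza)
  · rw [h2]
    exact hg0

lemma PG_diff (Γ : Finset Zr) : Differentiable ℂ (PG Γ) := by
  unfold PG
  fun_prop

lemma PG_ne {Γ : Finset Zr} {z : ℂ} (h : ∀ ρ ∈ Γ, z ≠ zz ρ) : PG Γ z ≠ 0 := by
  unfold PG
  rw [Finset.prod_ne_zero_iff]
  intro ρ hρ
  exact pow_ne_zero _ (sub_ne_zero.mpr (h ρ hρ))

theorem exists_B (Γ : Finset Zr) : ∃ B : ℂ → ℂ, Differentiable ℂ B ∧ (∀ z, Xi0 z = PG Γ z * B z) ∧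
    ∀ z, B z = 0 → ∃ ρ : Zr, ρ ∉ Γ ∧ z = zz ρ := by
  classical
  induction Γ using Finset.induction_on with
  | empty =>
    refine ⟨Xi0, Xi0_diff, fun z => ?_, fun z hz => ?_⟩
    · simp [PG]
    · obtain ⟨ρ, hρ⟩ := Xi0_zero hz
      exact ⟨ρ, Finset.notMem_empty _, hρ⟩
  | insert ρ0 Γ h0 ih =>
    obtain ⟨B, hB, hB1, hB2⟩ := ih
    have hne : PG Γ (zz ρ0) ≠ 0 := PG_ne fun ρ hρ h => h0 (by rw [zz_inj h]; exact hρ)
    have hord : analyticOrderAt B (zz ρ0) = (analyticOrderNatAt riemannZeta (ρ0 : ℂ) : ℕ) := by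
      rw [← Xi0_ord ρ0]
      have e : Xi0 = PG Γ * B := funext hB1
      rw [e, analyticOrderAt_mul ((PG_diff Γ).analyticAt _) (hB.analyticAt _),
        ((PG_diff Γ).analyticAt _).analyticOrderAt_eq_zero.mpr hne, zero_add]
    obtain ⟨B', hB', h1, h2⟩ := fac hB hord
    refine ⟨B', hB', fun z => ?_, fun z hz => ?_⟩
    · rw [hB1, h1]
      unfold PG
      rw [Finset.prod_insert h0]
      ring
    · have h3 : B z = 0 := by rw [h1, hz, mul_zero]
      obtain ⟨ρ, hρ, hρz⟩ := hB2 z h3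
      refine ⟨ρ, ?_, hρz⟩
      rw [Finset.mem_insert, not_or]
      refine ⟨?_, hρ⟩
      rintro rfl
      rw [hρz] at hz
      exact h2 hz

end Pool.Agent.Helper76.EX
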